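import Pool.Agent.H454.TG.Final

/-! Chebyshev's inequality. -/

set_option autoImplicit false
set_option linter.unusedSectionVars false

open scoped Classical

namespace Pool.Agent.H454.TG

open Finset hiding ext
open Filter Topology

/-- the abstract form -/
theorem cheb {ι : Type} {T : Finset ι} {m : ℕ} {sh : ℕ → ι → ℝ} {pr : ℕ → ℝ} {ρ E ε : ℝ}
    (hε : 0 < ε) (hρ : 0 ≤ ρ)
    (h : ∀ r, ∑ p ∈ T, (sh r p - pr r) ^ 2 ≤ 21 / 3 ^ r * ρ * (T.card : ℝ) + E)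
    (hbig : ∀ r, m < r → ∀ p ∈ T, |sh r p - pr r| ≤ ε) :
    ((T.filter fun p => ¬ ∀ r, |sh r p - pr r| ≤ ε).card : ℝ) * ε ^ 2 ≤
      32 * ρ * (T.card : ℝ) + (m + 1) * E := by
  have h1 : (T.filter fun p => ¬ ∀ r, |sh r p - pr r| ≤ ε) ⊆
      (range (m + 1)).biUnion fun r => T.filter fun p => ε < |sh r p - pr r| := by
    intro p hp
    rw [mem_filter] at hp
    obtain ⟨hpT, h2⟩ := hp
    push Not at h2
    obtain ⟨r, hr⟩ := h2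
    rw [mem_biUnion]
    refine ⟨r, ?_, mem_filter.2 ⟨hpT, hr⟩⟩
    rw [mem_range]
    by_contra h3
    have := hbig r (by omega) p hpT
    linarith
  have h2 : ∀ r, ((T.filter fun p => ε < |sh r p - pr r|).card : ℝ) * ε ^ 2 ≤
      21 / 3 ^ r * ρ * (T.card : ℝ) + E := by
    intro r
    refine le_trans ?_ (h r)
    rw [← nsmul_eq_mul, ← sum_const]
    refine (sum_le_sum fun p hp => ?_).trans
      (sum_le_sum_of_subset_of_nonneg (filter_subset _ T) fun _ _ _ => sq_nonneg _)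
    rw [← sq_abs (sh r p - pr r)]
    exact pow_le_pow_left₀ hε.le (mem_filter.1 hp).2.le 2
  have h3 : ((T.filter fun p => ¬ ∀ r, |sh r p - pr r| ≤ ε).card : ℝ) ≤
      ∑ r ∈ range (m + 1), ((T.filter fun p => ε < |sh r p - pr r|).card : ℝ) := by
    have := (card_le_card h1).trans card_biUnion_le
    exact_mod_cast this
  have h4 := mul_le_mul_of_nonneg_right h3 (sq_nonneg ε)
  rw [sum_mul] at h4
  refine h4.trans ((sum_le_sum fun r _ => h2 r).trans ?_)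
  rw [sum_add_distrib, sum_const, card_range, nsmul_eq_mul, ← sum_mul, ← sum_mul]
  push_cast
  refine add_le_add (mul_le_mul_of_nonneg_right (mul_le_mul_of_nonneg_right ?_ hρ)
    (Nat.cast_nonneg _)) le_rfl
  have h5 : ∑ r ∈ range (m + 1), (21 : ℝ) / 3 ^ r = 21 * ∑ r ∈ range (m + 1), (1 / 3 : ℝ) ^ r := by
    rw [mul_sum]
    refine sum_congr rfl fun r _ => ?_
    rw [one_div, inv_pow]
    rfl
  rw [h5, geom_sum_eq (by norm_num)]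
  have h6 : (0 : ℝ) < (1 / 3) ^ (m + 1) := by positivity
  have h7 : ((1 / 3 : ℝ) ^ (m + 1) - 1) / (1 / 3 - 1) = 3 / 2 * (1 - (1 / 3) ^ (m + 1)) := by
    ring
  rw [h7]
  linarith

/-- choice of the parameters -/
theorem params {ε : ℝ} (hε : 0 < ε) : ∃ M : ℕ, ∀ m : ℕ, M ≤ m →
    32 * (23 / 27 : ℝ) ^ (m + 1) ≤ ε ^ 3 / 2 ∧ (2 : ℝ) / 3 ^ m ≤ ε := by
  have h1 : Tendsto (fun m : ℕ => 32 * (23 / 27 : ℝ) ^ (m + 1)) atTop (𝓝 (32 * 0)) :=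
    ((tendsto_pow_atTop_nhds_zero_of_lt_one (by norm_num) (by norm_num)).comp
      (tendsto_add_atTop_nat 1)).const_mul 32
  have h2 : Tendsto (fun m : ℕ => 2 * (1 / 3 : ℝ) ^ m) atTop (𝓝 (2 * 0)) :=
    (tendsto_pow_atTop_nhds_zero_of_lt_one (by norm_num) (by norm_num)).const_mul 2
  rw [mul_zero] at h1 h2
  have h3 := h1.eventually (ge_mem_nhds (by positivity : 0 < ε ^ 3 / 2))
  have h4 := h2.eventually (ge_mem_nhds hε)
  obtain ⟨M, hM⟩ := eventually_atTop.1 (h3.and h4)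
  refine ⟨M, fun m hm => ⟨(hM m hm).1, ?_⟩⟩
  have := (hM m hm).2
  rwa [one_div, inv_pow, ← div_eq_mul_inv] at this

theorem params2 {ε : ℝ} (hε : 0 < ε) (C : ℝ) (m : ℕ) : ∃ z₀ : ℕ, ∀ z : ℕ, z₀ ≤ z →
    ∀ (X : Fin (m + 1) → ℕ) (N : ℝ), ∏ i, (X i : ℝ) ≤ (z : ℝ) ^ (1 / 48 : ℝ) * N → 0 ≤ N →
      0 < z → 0 ≤ C → (m + 1) * err C m X z ≤ ε ^ 3 / 2 * N := by
  have h1 : Tendsto (fun z : ℕ => (z : ℝ) ^ (-(1 / 48 : ℝ))) atTop (𝓝 0) :=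
    (tendsto_rpow_neg_atTop (by norm_num)).comp tendsto_natCast_atTop_atTop
  have h2 : Tendsto (fun z : ℕ => ((m + 1) * (144 ^ (m + 1) * 3 ^ (m * (m + 1) / 2) * C)) *
      (z : ℝ) ^ (-(1 / 48 : ℝ))) atTop
      (𝓝 (((m + 1) * (144 ^ (m + 1) * 3 ^ (m * (m + 1) / 2) * C)) * 0)) := h1.const_mul _
  rw [mul_zero] at h2
  obtain ⟨z₀, hz⟩ := eventually_atTop.1 (h2.eventually (ge_mem_nhds (by positivity : 0 < ε ^ 3 / 2)))
  refine ⟨z₀, fun z hz0 X N hX hN hzp hC => ?_⟩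
  have hzR : (0 : ℝ) < z := by exact_mod_cast hzp
  have h3 := hz z hz0
  have h4 : (z : ℝ) ^ (-(1 / 24 : ℝ)) * (z : ℝ) ^ (1 / 48 : ℝ) = (z : ℝ) ^ (-(1 / 48 : ℝ)) := by
    rw [← Real.rpow_add hzR]
    norm_num
  unfold err
  have h5 : (0 : ℝ) ≤ (m + 1) * (144 ^ (m + 1) * 3 ^ (m * (m + 1) / 2) * C) *
      (z : ℝ) ^ (-(1 / 24 : ℝ)) := by positivity
  calc ((m : ℝ) + 1) * (144 ^ (m + 1) * 3 ^ (m * (m + 1) / 2) * C * (z : ℝ) ^ (-(1 / 24 : ℝ)) *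
        ∏ i, (X i : ℝ))
      = (m + 1) * (144 ^ (m + 1) * 3 ^ (m * (m + 1) / 2) * C) *
      (z : ℝ) ^ (-(1 / 24 : ℝ)) * ∏ i, (X i : ℝ) := by ring
    _ ≤ (m + 1) * (144 ^ (m + 1) * 3 ^ (m * (m + 1) / 2) * C) *
      (z : ℝ) ^ (-(1 / 24 : ℝ)) * ((z : ℝ) ^ (1 / 48 : ℝ) * N) := mul_le_mul_of_nonneg_left hX h5
    _ = (m + 1) * (144 ^ (m + 1) * 3 ^ (m * (m + 1) / 2) * C) * (z : ℝ) ^ (-(1 / 48 : ℝ)) * N := by
        rw [← h4]; ring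
    _ ≤ _ := mul_le_mul_of_nonneg_right h3 hN

end Pool.Agent.H454.TG
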