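import Pool.Agent.H454.TG.Cls

/-! Sums over the tuples of primes. -/

set_option autoImplicit false
set_option linter.unusedSectionVars false

open scoped Classical

namespace Pool.Agent.H454.TG

open Finset hiding ext
open Module Filter Topology
open Pool.Agent.Y703.XK (prs ext)
open Pool.Agent.R338.CK (law share_eq nL Sets HB_of card_QB_le)
open Pool.Agent.Y692.QS (Ei w nr toC)
open Pool.Agent.Y715.T.Rec (cs)
open Pool.Agent.Y715.T.RecG (Pq)
open Pool.Agent.Y699.E (nrm nrm_cast nrm_mul nrm_one nrm_eq' QB mem_QB)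
open Pool.Agent.Y703.CT (Dt pD)

/-- the symbols of a tuple -/
noncomputable def sy {n : ℕ} (p : Fin n → Ei) : prs (Fin n) → F := fun x => cs (p x.1.1) (p x.1.2)

/-- sums over tuples -/
theorem sum_box : ∃ C : ℝ, 1 ≤ C ∧ ∀ (m : ℕ) (P : Fin (m + 1) → Finset Ei) (X : Fin (m + 1) → ℕ)
    (z : ℕ), Sets P X z → ∀ Φ : (prs (Fin (m + 1)) → F) → ℝ, (∀ α, 0 ≤ Φ α ∧ Φ α ≤ 1) →
    ∑ p ∈ Fintype.piFinset P, Φ (sy p) ≤
      (∑ α, Φ α) / 3 ^ (prs (Fin (m + 1))).card * ∏ j, ((P j).card : ℝ) +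
      3 ^ (prs (Fin (m + 1))).card * (C * (z : ℝ) ^ (-(1 / 24 : ℝ)) * ∏ j, ((16 * X j : ℕ) : ℝ)) := by
  obtain ⟨C, hC1, hC⟩ := HB_of
  refine ⟨C, hC1, fun m P X z hS Φ hΦ => ?_⟩
  set R : ℝ := C * (z : ℝ) ^ (-(1 / 24 : ℝ)) * ∏ j, ((16 * X j : ℕ) : ℝ) with hR
  have hR0 : 0 ≤ R := by positivity
  have hcard : ∀ i, (P i).card ≤ 16 * X i := by
    intro i
    have h1 : P i ⊆ QB (X i) := fun π hπ => by
      obtain ⟨h1, h3⟩ := hS.mem i π hπ
      exact mem_QB.2 ⟨h3, h1⟩
    exact (card_le_card h1).trans (card_QB_le (hS.one.trans (hS.le i)))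
  have h1 : ∀ a : prs (Fin (m + 1)) → F,
      (((Fintype.piFinset P).filter fun p => sy p = a).card : ℝ) ≤
        (∏ j, ((P j).card : ℝ)) / 3 ^ (prs (Fin (m + 1))).card + R := by
    intro a
    have h2 := Pool.Agent.Y710.XK.count_one (ι := Fin (m + 1)) (C := P) (X := fun i => 16 * X i)
      (κ := C * (z : ℝ) ^ (-(1 / 24 : ℝ))) (by positivity) hcard (hC m P X z hS) a
    have h3 := (abs_le.1 h2).2
    have h4 : ∀ (d1 : DecidableEq (Fin (m + 1))) (d2 : DecidablePred fun p : Fin (m + 1) → Ei =>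
        (fun e : prs (Fin (m + 1)) => cs (p e.1.1) (p e.1.2)) = a),
        (@filter _ (fun p : Fin (m + 1) → Ei => (fun e : prs (Fin (m + 1)) =>
          cs (p e.1.1) (p e.1.2)) = a) d2 (@Fintype.piFinset _ d1 _ _ P)).card =
        ((Fintype.piFinset P).filter fun p => sy p = a).card := by
      intro d1 d2
      congr 1
      ext p
      simp only [mem_filter, Fintype.mem_piFinset]
      rfl
    rw [h4] at h3
    linarith
  have h2 : ∑ p ∈ Fintype.piFinset P, Φ (sy p) = ∑ a : prs (Fin (m + 1)) → F,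
      Φ a * (((Fintype.piFinset P).filter fun p => sy p = a).card : ℝ) := by
    rw [← sum_fiberwise_of_maps_to (s := Fintype.piFinset P) (t := univ) (g := sy)
      (fun p _ => mem_univ _)]
    refine sum_congr rfl fun a _ => ?_
    rw [sum_congr rfl (g := fun _ => Φ a) (fun p hp => by rw [(mem_filter.1 hp).2]), sum_const,
      nsmul_eq_mul, mul_comm]
  rw [h2]
  calc _ ≤ ∑ a : prs (Fin (m + 1)) → F, (Φ a * ((∏ j, ((P j).card : ℝ)) /
          3 ^ (prs (Fin (m + 1))).card) + R) := by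
        refine sum_le_sum fun a _ => ?_
        have h3 := mul_le_mul_of_nonneg_left (h1 a) (hΦ a).1
        rw [mul_add] at h3
        have h4 := mul_le_mul_of_nonneg_right (hΦ a).2 hR0
        linarith
    _ = _ := by
        rw [sum_add_distrib, ← sum_mul, sum_const, card_univ, Fintype.card_fun, ZMod.card,
          Fintype.card_coe, nsmul_eq_mul]
        push_cast
        ring

/-- the exponents with norm of the product different from one modulo nine -/
noncomputable def EA {n : ℕ} (p : Fin n → Ei) : Finset (Fin n → F) :=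
  EU fun i => ((nrm (p i) : ℕ) : ZMod 9)

theorem nrm_three {a : Ei} (h : (3 : Ei) ∣ a - 1) : ((nrm a : ℕ) : ZMod 9) ^ 3 = 1 := by
  obtain ⟨c, hc⟩ := h
  have hre : a.re = 1 + 3 * c.re := by
    have := congrArg QuadraticAlgebra.re hc
    have h3 : ((3 : Ei) * c).re = 3 * c.re := by
      have : (3 : Ei) * c = c + c + c := by ring
      rw [this, QuadraticAlgebra.re_add, QuadraticAlgebra.re_add]
      ring
    rw [h3, QuadraticAlgebra.re_sub, QuadraticAlgebra.re_one] at this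
    linarith
  have him : a.im = 3 * c.im := by
    have := congrArg QuadraticAlgebra.im hc
    have h3 : ((3 : Ei) * c).im = 3 * c.im := by
      have : (3 : Ei) * c = c + c + c := by ring
      rw [this, QuadraticAlgebra.im_add, QuadraticAlgebra.im_add]
      ring
    rw [h3, QuadraticAlgebra.im_sub, QuadraticAlgebra.im_one] at this
    linarith
  have h1 : (nrm a : ℤ) = 1 + 3 * (2 * c.re + 3 * c.re ^ 2 - c.im - 3 * c.re * c.im +
      3 * c.im ^ 2) := by
    rw [nrm_eq', hre, him]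
    ring
  have h2 : ((nrm a : ℕ) : ZMod 9) = 1 + 3 * ((2 * c.re + 3 * c.re ^ 2 - c.im - 3 * c.re * c.im +
      3 * c.im ^ 2 : ℤ) : ZMod 9) := by
    have := congrArg (Int.cast : ℤ → ZMod 9) h1
    push_cast at this ⊢
    exact this
  rw [h2]
  generalize ((2 * c.re + 3 * c.re ^ 2 - c.im - 3 * c.re * c.im + 3 * c.im ^ 2 : ℤ) : ZMod 9) = t
  revert t
  decide

/-- the tuples which are considered -/
noncomputable def TA {m : ℕ} (P : Fin (m + 1) → Finset Ei) : Finset (Fin (m + 1) → Ei) :=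
  (Fintype.piFinset P).filter fun p => ∃ i, ((nrm (p i) : ℕ) : ZMod 9) ≠ 1

/-- **The mean square deviation for the tuples of primes.** -/
theorem box : ∃ C : ℝ, 1 ≤ C ∧ ∀ (m : ℕ) (P : Fin (m + 1) → Finset Ei) (X : Fin (m + 1) → ℕ)
    (z : ℕ), Sets P X z → ∀ r : ℕ,
    ∑ p ∈ TA P, (shr r (EA p) (sy p) - prob r) ^ 2 ≤
      21 / 3 ^ r * (23 / 27) ^ (m + 1) * ((TA P).card : ℝ) +
      9 ^ (m + 1) * (3 ^ (prs (Fin (m + 1))).card *
        (C * (z : ℝ) ^ (-(1 / 24 : ℝ)) * ∏ j, ((16 * X j : ℕ) : ℝ))) := by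
  obtain ⟨C, hC1, hC⟩ := sum_box
  refine ⟨C, hC1, fun m P X z hS r => ?_⟩
  set E : ℝ := 3 ^ (prs (Fin (m + 1))).card *
    (C * (z : ℝ) ^ (-(1 / 24 : ℝ)) * ∏ j, ((16 * X j : ℕ) : ℝ)) with hE
  have hE0 : 0 ≤ E := by positivity
  set Pu : (Fin (m + 1) → ZMod 9) → Fin (m + 1) → Finset Ei :=
    fun u i => (P i).filter fun π => ((nrm π : ℕ) : ZMod 9) = u i with hPu
  have hSu : ∀ u, Sets (Pu u) X z := fun u =>
    { one := hS.one
      le := hS.le
      mem := fun i p hp => hS.mem i p (mem_filter.1 hp).1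
      dis := fun i l hil => disjoint_left.2 fun p hp hp' =>
        disjoint_left.1 (hS.dis i l hil) (mem_filter.1 hp).1 (mem_filter.1 hp').1 }
  set U := univ.filter fun u : Fin (m + 1) → ZMod 9 => ∃ i, u i ≠ 1 with hU
  -- decomposition into the classes
  have hdec : ∀ g : (Fin (m + 1) → Ei) → ℝ, ∑ p ∈ TA P, g p =
      ∑ u ∈ U, ∑ p ∈ Fintype.piFinset (Pu u), g p := by
    intro g
    rw [← sum_fiberwise_of_maps_to (s := TA P) (t := U)
      (g := fun (p : Fin (m + 1) → Ei) i => ((nrm (p i) : ℕ) : ZMod 9)) (fun p hp => ?_)]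
    · refine sum_congr rfl fun u hu => ?_
      refine sum_congr ?_ fun _ _ => rfl
      ext p
      rw [hU, mem_filter] at hu
      simp only [TA, mem_filter, Fintype.mem_piFinset, hPu, funext_iff]
      constructor
      · rintro ⟨⟨h6, h7⟩, h9⟩
        exact fun i => ⟨h6 i, h9 i⟩
      · intro h6
        refine ⟨⟨fun i => (h6 i).1, ?_⟩, fun i => (h6 i).2⟩
        obtain ⟨i, hi⟩ := hu.2
        exact ⟨i, by rw [(h6 i).2]; exact hi⟩
    · rw [TA, mem_filter] at hp
      rw [hU, mem_filter]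
      exact ⟨mem_univ _, hp.2⟩
  have hcard : ((TA P).card : ℝ) = ∑ u ∈ U, ∏ j, ((Pu u j).card : ℝ) := by
    have h1 := hdec fun _ => 1
    rw [sum_const, nsmul_eq_mul, mul_one] at h1
    rw [h1]
    refine sum_congr rfl fun u _ => ?_
    rw [sum_const, nsmul_eq_mul, mul_one, Fintype.card_piFinset]
    push_cast
    rfl
  have h1 : ∀ u ∈ U, ∑ p ∈ Fintype.piFinset (Pu u), (shr r (EA p) (sy p) - prob r) ^ 2 ≤
      21 / 3 ^ r * (23 / 27) ^ (m + 1) * ∏ j, ((Pu u j).card : ℝ) + E := by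
    intro u hu
    rw [hU, mem_filter] at hu
    by_cases hne : (Fintype.piFinset (Pu u)).Nonempty
    · obtain ⟨p0, hp0⟩ := hne
      have hu3 : ∀ i, u i ^ 3 = 1 := by
        intro i
        have h2 := Fintype.mem_piFinset.1 hp0 i
        rw [← (mem_filter.1 h2).2]
        exact nrm_three (hS.mem i _ (mem_filter.1 h2).1).1.three
      have h2 : ∑ p ∈ Fintype.piFinset (Pu u), (shr r (EA p) (sy p) - prob r) ^ 2 =
          ∑ p ∈ Fintype.piFinset (Pu u), (fun α => (shr r (EU u) α - prob r) ^ 2) (sy p) := by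
        refine sum_congr rfl fun p hp => ?_
        have h3 : EA p = EU u := by
          unfold EA
          congr 1
          funext i
          exact (mem_filter.1 (Fintype.mem_piFinset.1 hp i)).2
        rw [h3]
      rw [h2]
      have h4 := hC m (Pu u) X z (hSu u) (fun α => (shr r (EU u) α - prob r) ^ 2)
        fun α => ⟨sq_nonneg _, sq_le_one (shr_mem r _ α) (prob_mem r)⟩
      rw [← hE] at h4
      refine h4.trans (add_le_add_left ?_ E)
      have h5 := var_shr hu3 hu.2 r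
      refine mul_le_mul_of_nonneg_right ?_ (prod_nonneg fun _ _ => Nat.cast_nonneg _)
      rw [div_le_iff₀ (by positivity)]
      exact h5
    · rw [not_nonempty_iff_eq_empty.1 hne, sum_empty]
      have h2 : 0 ≤ ∏ j, ((Pu u j).card : ℝ) := prod_nonneg fun _ _ => Nat.cast_nonneg _
      have h3 : (0 : ℝ) ≤ 21 / 3 ^ r * (23 / 27) ^ (m + 1) := by positivity
      exact add_nonneg (mul_nonneg h3 h2) hE0
  rw [hdec, hcard]
  refine (sum_le_sum h1).trans ?_
  rw [sum_add_distrib, ← mul_sum, sum_const, nsmul_eq_mul]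
  have h3 : ((U.card : ℕ) : ℝ) ≤ 9 ^ (m + 1) := by
    have h4 : U.card ≤ 9 ^ (m + 1) := by
      refine (card_le_univ _).trans ?_
      rw [Fintype.card_fun, ZMod.card, Fintype.card_fin]
    exact_mod_cast h4
  exact add_le_add le_rfl (mul_le_mul_of_nonneg_right h3 hE0)

end Pool.Agent.H454.TG
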