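import Pool.Agent.H454.TG.Lim
import Pool.Graph.R_pool_sql_team_seeded_b0a926ef.R338.CK.Fin

/-! The groups of twists and the classes modulo nine. -/

set_option autoImplicit false
set_option linter.unusedSectionVars false

open scoped Classical

namespace Pool.Agent.H454.TG

open Finset hiding ext
open Module Filter Topology
open Pool.Agent.Y703.XK (prs ext)
open Pool.Agent.R338.CK (law share_eq nL Sets)
open Pool.Agent.Y692.QS (Ei w nr toC)
open Pool.Agent.Y715.T.Rec (cs)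
open Pool.Agent.Y715.T.RecG (Pq)
open Pool.Agent.Y699.E (nrm nrm_cast nrm_mul nrm_one nrm_eq')
open Pool.Agent.Y703.CT (Dt pD)
open Pool.Agent.R338.CK.XL6 (KerV SelK SelH)

/-- exponents with a product different from one -/
noncomputable def EU {n : ℕ} (u : Fin n → ZMod 9) : Finset (Fin n → F) :=
  univ.filter fun e => ∏ i, u i ^ (e i).val ≠ 1

theorem three_one : ∀ t u : ZMod 9, t ^ 3 = 1 → u ^ 3 = 1 → u ≠ 1 →
    ∑ d : F, (if t * u ^ d.val = 1 then (1 : ℕ) else 0) = 1 := by decide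

theorem prod_cube {n : ℕ} {u : Fin n → ZMod 9} (hu : ∀ i, u i ^ 3 = 1) (s : Finset (Fin n))
    (e : Fin n → F) : (∏ i ∈ s, u i ^ (e i).val) ^ 3 = 1 := by
  rw [← prod_pow]
  refine prod_eq_one fun i _ => ?_
  rw [← pow_mul, mul_comm, pow_mul, hu i, one_pow]

theorem card_EU {m : ℕ} {u : Fin (m + 1) → ZMod 9} (hu : ∀ i, u i ^ 3 = 1) (h1 : ∃ i, u i ≠ 1) :
    ((EU u).card : ℝ) = 2 * 3 ^ m := by
  obtain ⟨ν, hν⟩ := h1
  have h2 := sum_update (fun e : Fin (m + 1) → F =>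
    (if ∏ i, u i ^ (e i).val = 1 then (1 : ℝ) else 0)) ν
  have h3 : ∀ e : Fin (m + 1) → F, ∑ d : F,
      (if ∏ i, u i ^ (Function.update e ν d i).val = 1 then (1 : ℝ) else 0) = 1 := by
    intro e
    have h4 : ∀ d : F, ∏ i, u i ^ (Function.update e ν d i).val =
        (∏ i ∈ univ.erase ν, u i ^ (e i).val) * u ν ^ d.val := by
      intro d
      rw [← mul_prod_erase univ _ (mem_univ ν), Function.update_self, mul_comm]
      congr 1
      refine prod_congr rfl fun i hi => ?_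
      rw [Function.update_of_ne (ne_of_mem_erase hi)]
    simp only [h4]
    have h5 := three_one (∏ i ∈ univ.erase ν, u i ^ (e i).val) (u ν) (prod_cube hu _ e) (hu ν) hν
    exact_mod_cast h5
  rw [sum_congr rfl fun e _ => h3 e, sum_const, card_univ, Fintype.card_fun, ZMod.card,
    Fintype.card_fin, nsmul_eq_mul, mul_one, smul_eq_mul] at h2
  have h6 : ((EU u).card : ℝ) = 3 ^ (m + 1) -
      ∑ e : Fin (m + 1) → F, (if ∏ i, u i ^ (e i).val = 1 then (1 : ℝ) else 0) := by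
    have h7 : ((EU u).card : ℝ) = ∑ e : Fin (m + 1) → F,
        (1 - (if ∏ i, u i ^ (e i).val = 1 then (1 : ℝ) else 0)) := by
      unfold EU
      rw [card_eq_sum_ones, sum_filter]
      push_cast
      refine sum_congr rfl fun e _ => ?_
      by_cases h : ∏ i, u i ^ (e i).val = 1
      · rw [if_pos h, if_neg (not_not.2 h)]; norm_num
      · rw [if_neg h, if_pos h]; norm_num
    rw [h7, sum_sub_distrib, sum_const, card_univ, Fintype.card_fun, ZMod.card,
      Fintype.card_fin, nsmul_eq_mul, mul_one]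
    push_cast
    rfl
  rw [h6]
  push_cast at h2
  rw [pow_succ] at h2 ⊢
  linarith

theorem supp_EU {n : ℕ} {u : Fin n → ZMod 9} {e : Fin n → F} (he : e ∈ EU u) :
    (supp e).Nonempty := by
  by_contra h
  rw [not_nonempty_iff_eq_empty] at h
  unfold EU at he
  rw [mem_filter] at he
  apply he.2
  refine prod_eq_one fun i _ => ?_
  have : e i = 0 := by
    by_contra h2
    have := mem_supp.2 h2
    rw [h] at this
    exact notMem_empty i this
  rw [this]
  simp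

/-- the share -/
noncomputable def shr {n : ℕ} (r : ℕ) (E : Finset (Fin n → F)) (α : prs (Fin n) → F) : ℝ :=
  (∑ e ∈ E, dl r e α) / E.card

theorem shr_mem {n : ℕ} (r : ℕ) (E : Finset (Fin n → F)) (α : prs (Fin n) → F) :
    0 ≤ shr r E α ∧ shr r E α ≤ 1 := by
  have h1 : ∀ e, 0 ≤ dl r e α ∧ dl r e α ≤ 1 := by
    intro e
    unfold dl
    split_ifs <;> norm_num
  refine ⟨div_nonneg (sum_nonneg fun e _ => (h1 e).1) (Nat.cast_nonneg _), ?_⟩
  unfold shr
  refine div_le_one_of_le₀ ?_ (Nat.cast_nonneg _)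
  refine (sum_le_sum fun e _ => (h1 e).2).trans (le_of_eq ?_)
  rw [sum_const, nsmul_eq_mul, mul_one]

theorem prob_mem (r : ℕ) : 0 ≤ prob r ∧ prob r ≤ 1 :=
  ⟨p_nonneg (iter_tendsto r), p_le_one (iter_tendsto r)⟩

theorem sq_le_one {x y : ℝ} (hx : 0 ≤ x ∧ x ≤ 1) (hy : 0 ≤ y ∧ y ≤ 1) : (x - y) ^ 2 ≤ 1 := by
  have h1 : |x - y| ≤ 1 := abs_le.2 ⟨by linarith [hx.1, hy.2], by linarith [hx.2, hy.1]⟩
  calc (x - y) ^ 2 = |x - y| ^ 2 := (sq_abs _).symm
    _ ≤ 1 := pow_le_one₀ (abs_nonneg _) h1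

/-- the mean square deviation for one class -/
theorem var_shr {m : ℕ} {u : Fin (m + 1) → ZMod 9} (hu : ∀ i, u i ^ 3 = 1) (h1 : ∃ i, u i ≠ 1)
    (r : ℕ) : ∑ α : prs (Fin (m + 1)) → F, (shr r (EU u) α - prob r) ^ 2 ≤
      21 / 3 ^ r * (23 / 27) ^ (m + 1) * 3 ^ (prs (Fin (m + 1))).card := by
  have hc := card_EU hu h1
  have hpos : (0 : ℝ) < (EU u).card := by rw [hc]; positivity
  have h2 := variance_sol (iter_tendsto r) (EU u) fun e he => supp_EU he
  have h3 : ∀ α : prs (Fin (m + 1)) → F, (shr r (EU u) α - prob r) ^ 2 =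
      (∑ e ∈ EU u, (dl r e α - prob r)) ^ 2 / ((EU u).card : ℝ) ^ 2 := by
    intro α
    unfold shr
    rw [← div_pow]
    congr 1
    rw [sum_sub_distrib, sum_const, nsmul_eq_mul, sub_div, mul_div_cancel_left₀ _ hpos.ne']
  rw [sum_congr rfl fun α _ => h3 α, ← sum_div, div_le_iff₀ (by positivity)]
  refine h2.trans ?_
  rw [hc, Fintype.card_fin]
  have h4 : (23 / 3 : ℝ) ^ (m + 1) = (23 / 27) ^ (m + 1) * (9 * (3 ^ m) ^ 2) := by
    have : (23 / 3 : ℝ) = 23 / 27 * 9 := by norm_num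
    rw [this, mul_pow]
    congr 1
    rw [← pow_mul, mul_comm m 2, pow_mul, pow_succ]
    norm_num
    ring
  rw [h4]
  have h5 : (0 : ℝ) < 3 ^ r := by positivity
  have h6 : (0 : ℝ) ≤ (23 / 27) ^ (m + 1) * (3 ^ m) ^ 2 * 3 ^ (prs (Fin (m + 1))).card / 3 ^ r := by
    positivity
  calc (9 : ℝ) / 3 ^ r * ((23 / 27) ^ (m + 1) * (9 * (3 ^ m) ^ 2)) * 3 ^ (prs (Fin (m + 1))).card
      = 81 * ((23 / 27) ^ (m + 1) * (3 ^ m) ^ 2 * 3 ^ (prs (Fin (m + 1))).card / 3 ^ r) := by ring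
    _ ≤ 84 * ((23 / 27) ^ (m + 1) * (3 ^ m) ^ 2 * 3 ^ (prs (Fin (m + 1))).card / 3 ^ r) :=
        mul_le_mul_of_nonneg_right (by norm_num) h6
    _ = _ := by ring

end Pool.Agent.H454.TG
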