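import Pool.Agent.H454.TG.Bx
import Pool.Graph.R_seed8.R419.KL.Sel3

/-! The Selmer groups of the twists. -/

set_option autoImplicit false
set_option linter.unusedSectionVars false

open scoped Classical

namespace Pool.Agent.H454.TG

open Finset hiding ext
open Module Filter Topology NumberField WeierstrassCurve
open Pool.Agent.Y703.XK (prs ext)
open Pool.Agent.R338.CK (law share_eq nL Sets)
open Pool.Agent.Y692.QS (Ei w nr toC)
open Pool.Agent.Y715.T.Rec (cs)
open Pool.Agent.Y715.T.RecG (Pq)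
open Pool.Agent.Y699.E (nrm nrm_cast nrm_mul nrm_one nrm_eq')
open Pool.Agent.Y703.CT (Dt pD)
open Pool.Agent.R338.CK.XL6 (KerV SelK SelH trf sel_card selK_card rk_le rank_le)
open Pool.Agent.R338.CK.S (ED)
open Pool.Agent.Y155.CT (a_mul a_cont AG AG_fg)

section
variable {m : ℕ} {p : Fin (m + 1) → Ei}

theorem ext_sy (hp : Dt p (fun _ => 1)) {i j : Fin (m + 1)} (hij : i ≠ j) :
    ext (sy p) j i = cs (p j) (p i) := by
  unfold Pool.Agent.Y703.XK.ext sy
  split_ifs with h h'
  · rfl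
  · exact Pool.Agent.Y350.CT.rec _ _ (hp.pq j) (hp.pq i) (hp.nd j i (Ne.symm hij))
  · exfalso
    rcases lt_or_gt_of_ne hij with h3 | h3
    · exact h' (by simpa [prs] using h3)
    · exact h (by simpa [prs] using h3)

theorem kerV_sol (hp : Dt p (fun _ => 1)) (e : Fin (m + 1) → F) :
    (KerV (fun i : {i // i ∈ supp e} => p i) (fun i => e i)).ncard = (sol (ext (sy p)) e).ncard := by
  let φ : ({i // i ∈ supp e} → F) → (Fin (m + 1) → F) := fun v i =>
    if h : i ∈ supp e then v ⟨i, h⟩ else 0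
  have hφ : Function.Injective φ := by
    intro v v' h
    funext ⟨i, hi⟩
    have := congrFun h i
    simpa only [φ, dif_pos hi] using this
  have key : ∀ (v : {i // i ∈ supp e} → F) (j : {i // i ∈ supp e}),
      ∑ i ∈ supp e, e i * ext (sy p) j i * (φ v i - φ v j) =
        ∑ i : {i // i ∈ supp e}, e i * cs (p j) (p i) * (v i - v j) := by
    intro v j
    rw [← sum_coe_sort (supp e) fun i => e i * ext (sy p) j i * (φ v i - φ v j)]
    refine sum_congr rfl fun i _ => ?_
    have h1 : φ v i = v i := dif_pos i.2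
    have h2 : φ v j = v j := dif_pos j.2
    rw [h1, h2]
    by_cases hij : i = j
    · rw [hij, sub_self, mul_zero, mul_zero]
    · rw [ext_sy hp (fun h => hij (Subtype.ext h))]
  have himg : sol (ext (sy p)) e = φ '' KerV (fun i : {i // i ∈ supp e} => p i) (fun i => e i) := by
    ext v
    constructor
    · rintro ⟨h1, h2⟩
      have hv : φ (fun i => v i) = v := by
        funext i
        by_cases hi : i ∈ supp e
        · exact dif_pos hi
        · rw [h1 i hi]
          exact dif_neg hi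
      refine ⟨fun i => v i, fun j => ?_, hv⟩
      show ∑ i : {i // i ∈ supp e}, e i * cs (p j) (p i) * (v i - v j) = 0
      rw [← key (fun i => v i) j, hv]
      exact h2 j j.2
    · rintro ⟨v, hv, rfl⟩
      refine ⟨fun i hi => dif_neg hi, fun j hj => ?_⟩
      rw [key v ⟨j, hj⟩]
      exact hv ⟨j, hj⟩
  rw [himg, Set.ncard_image_of_injective _ hφ]

/-- the twist -/
def tw (p : Fin (m + 1) → Ei) (e : Fin (m + 1) → F) : Ei := ∏ i, p i ^ (e i).val

theorem tw_pD (e : Fin (m + 1) → F) :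
    pD (fun i : {i // i ∈ supp e} => p i) (fun i => e i) = tw p e := by
  unfold pD tw
  rw [prod_coe_sort (supp e) fun i => p i ^ (e i).val]
  refine prod_subset (subset_univ _) fun i _ hi => ?_
  have : e i = 0 := by
    by_contra h
    exact hi (mem_supp.2 h)
  rw [this]
  simp

theorem dt_sub (hp : Dt p (fun _ => 1)) (e : Fin (m + 1) → F) :
    Dt (fun i : {i // i ∈ supp e} => p i) (fun i => e i) :=
  ⟨fun j => hp.pq j, fun i j hij => hp.nd i j fun h => hij (Subtype.ext h),
    fun j => supp_ne (e := e) j j.2⟩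

theorem nrm_prod {ι : Type} (s : Finset ι) (f : ι → Ei) :
    nrm (∏ i ∈ s, f i) = ∏ i ∈ s, nrm (f i) := Pool.Agent.R338.CK.nrm_prod s f

theorem nrm_pow (a : Ei) (k : ℕ) : nrm (a ^ k) = nrm a ^ k := by
  induction k with
  | zero => rw [pow_zero, pow_zero, nrm_one]
  | succ k ih => rw [pow_succ, pow_succ, nrm_mul, ih]

theorem nrm_tw (e : Fin (m + 1) → F) : nrm (tw p e) = ∏ i, nrm (p i) ^ (e i).val := by
  unfold tw
  rw [nrm_prod]
  exact prod_congr rfl fun i _ => nrm_pow _ _

theorem mem_EA (e : Fin (m + 1) → F) : e ∈ EA p ↔ ¬ (9 : ℤ) ∣ nr (tw p e) - 1 := by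
  unfold EA EU
  rw [mem_filter, ← nrm_cast, nrm_tw]
  have h1 : (∏ i, ((nrm (p i) : ℕ) : ZMod 9) ^ (e i).val) =
      (((∏ i, nrm (p i) ^ (e i).val : ℕ) : ℤ) : ZMod 9) := by
    push_cast
    rfl
  rw [h1]
  have h2 : ∀ N : ℤ, ((N : ℤ) : ZMod 9) = 1 ↔ (9 : ℤ) ∣ N - 1 := by
    intro N
    have := ZMod.intCast_zmod_eq_zero_iff_dvd (N - 1) 9
    push_cast at this
    rw [← this, sub_eq_zero]
  rw [Ne, h2]
  exact ⟨fun h => h.2, fun h => ⟨mem_univ _, h⟩⟩

/-- **one twist** -/
theorem one_tw {K : Type} [Field K] [NumberField K] {j : Ei ≃+* 𝓞 K}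
    (hp : Dt p (fun _ => 1)) {e : Fin (m + 1) → F} (he : e ∈ EA p) :
    (SelK (j (tw p e) : K)).ncard = (sol (ext (sy p)) e).ncard ∧
    (∀ r : ℕ, (sol (ext (sy p)) e).ncard ≤ 3 ^ (r + 1) →
      Module.finrank ℤ (ED (j (tw p e) : K)).toAffine.Point ≤ 2 * r) ∧
    (j (tw p e) : K) ≠ 0 ∧ ∀ t : K, t ^ 3 ≠ (j (tw p e) : K) := by
  have h9 := (mem_EA e).1 he
  obtain ⟨i0, hi0⟩ := supp_EU he
  have hJ : Nonempty {i // i ∈ supp e} := ⟨⟨i0, hi0⟩⟩
  have hD := dt_sub hp e
  have hne : pD (fun i : {i // i ∈ supp e} => p i) (fun i => e i) ≠ 0 :=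
    Pool.Agent.Y153.CTRAM.ne_zero_of hD
  have h9' := h9
  rw [← tw_pD e] at h9'
  rw [← kerV_sol hp e]
  have hcube : ∀ t : K, t ^ 3 ≠ (j (tw p e) : K) := by
    intro t h
    have ht : IsIntegral ℤ t := by
      apply IsIntegral.of_pow (n := 3) (by norm_num)
      rw [h]
      exact RingOfIntegers.isIntegral_coe _
    obtain ⟨s, rfl⟩ : ∃ s : 𝓞 K, (s : K) = t := ⟨⟨t, ht⟩, rfl⟩
    have h1 : s ^ 3 = j (tw p e) := by
      apply RingOfIntegers.coe_injective
      rw [map_pow]
      exact h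
    obtain ⟨z, rfl⟩ := j.surjective s
    have h2 : z ^ 3 = tw p e := by
      apply j.injective
      rw [map_pow]
      exact h1
    have h3 : ((nrm (tw p e) : ℕ) : ZMod 9) ^ 3 = 1 := by
      rw [nrm_tw]
      push_cast
      exact prod_cube (fun i => nrm_three (hp.pq i).three) univ e
    have h4 : ((nrm (tw p e) : ℕ) : ZMod 9) = ((nrm z : ℕ) : ZMod 9) ^ 3 := by
      rw [← h2, nrm_pow]
      push_cast
      rfl
    have h5 : ((nrm (tw p e) : ℕ) : ZMod 9) = 1 := by
      rw [h4] at h3 ⊢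
      generalize ((nrm z : ℕ) : ZMod 9) = t at h3
      revert t
      decide
    apply h9
    rw [← nrm_cast]
    have := ZMod.intCast_zmod_eq_zero_iff_dvd ((nrm (tw p e) : ℤ) - 1) 9
    push_cast at this
    exact this.1 (by rw [h5, sub_self])
  rw [← tw_pD e] at hcube ⊢
  obtain ⟨e', i₀, hi, u, a, Ψ, g, hdata⟩ := trf K j _ hne
  have hT := hdata.1
  have h1 := sel_card hD h9' hT
  refine ⟨(selK_card hne hdata).trans h1, fun r hr => ?_, ?_, hcube⟩
  · have hpos : (KerV (fun i : {i // i ∈ supp e} => p i) (fun i => e i)).ncard ≠ 0 := by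
      have h0 : (0 : {i // i ∈ supp e} → ZMod 3) ∈
          KerV (fun i : {i // i ∈ supp e} => p i) (fun i => e i) := fun j => by simp
      exact Set.ncard_ne_zero_of_mem h0 (Set.toFinite _)
    have hfin : (SelH hi a).Finite := Set.finite_of_ncard_ne_zero (by rw [h1]; exact hpos)
    exact (rk_le hne hdata).trans (rank_le (a_mul hne hT) (a_cont hne hT)
      (Pool.Agent.R395.CT.a_ne hD hT) hfin (by rw [h1]; exact hr))
  · intro h
    apply hne
    apply j.injective
    rw [map_zero]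
    exact RingOfIntegers.coe_injective (by rw [map_zero]; exact h)

/-- the number of solutions is a power of three -/
theorem sol_pow {e : Fin (m + 1) → F} (he : (supp e).Nonempty) :
    ∃ r : ℕ, r ≤ m ∧ (sol (ext (sy p)) e).ncard = 3 ^ (r + 1) := by
  -- an array `A` with these symbols
  let A : Fin (m + 1) → Fin (m + 1) → F := fun i j =>
    if h : (i, j) ∈ prs (Fin (m + 1)) then sy p ⟨(i, j), h⟩ else 0
  have hA : sg A = sy p := by
    funext x
    obtain ⟨⟨i, j⟩, hx⟩ := x
    have h1 : (j, i) ∉ prs (Fin (m + 1)) := by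
      unfold prs at hx ⊢
      simp only [mem_filter, mem_univ, true_and] at hx ⊢
      exact not_lt.2 hx.le
    unfold sg
    simp only [A]
    rw [dif_pos hx, dif_neg h1, add_zero]
  have h1 := card_sol he A
  rw [hA] at h1
  refine ⟨ck e A, ?_, h1⟩
  have h2 : (sol (ext (sy p)) e).ncard ≤ 3 ^ (m + 1) := by
    have h5 := Set.ncard_le_ncard (Set.subset_univ (sol (ext (sy p)) e)) Set.finite_univ
    rwa [Set.ncard_univ, Nat.card_fun, Nat.card_zmod, Nat.card_fin] at h5
  rw [h1] at h2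
  have h5 := (Nat.pow_le_pow_iff_right (by norm_num : 1 < 3)).1 h2
  omega

end

end Pool.Agent.H454.TG
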