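import Mathlib

/-! The kernel of a symmetric matrix over the field with three elements, and how it changes when a row
and a column are added. -/

set_option autoImplicit false
set_option linter.unusedSectionVars false

namespace Pool.Agent.H454.TG

open Finset Module

/-- the field with three elements -/
abbrev F := ZMod 3

variable {V : Type} [Fintype V] [DecidableEq V]

/-- the kernel of the submatrix of `M` with rows and columns in `W` -/
def Ker (W : Finset V) (M : V → V → F) : Submodule F (V → F) where
  carrier := {v | (∀ i, i ∉ W → v i = 0) ∧ ∀ i ∈ W, ∑ j ∈ W, M i j * v j = 0}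
  zero_mem' := ⟨fun _ _ => rfl, fun i _ => by simp⟩
  add_mem' := by
    rintro a b ⟨h1, h2⟩ ⟨h3, h4⟩
    refine ⟨fun i hi => by rw [Pi.add_apply, h1 i hi, h3 i hi, add_zero], fun i hi => ?_⟩
    have : ∑ j ∈ W, M i j * (a + b) j = ∑ j ∈ W, M i j * a j + ∑ j ∈ W, M i j * b j := by
      rw [← sum_add_distrib]
      exact sum_congr rfl fun j _ => by rw [Pi.add_apply, mul_add]
    rw [this, h2 i hi, h4 i hi, add_zero]
  smul_mem' := by
    rintro c a ⟨h1, h2⟩
    refine ⟨fun i hi => by rw [Pi.smul_apply, h1 i hi, smul_zero], fun i hi => ?_⟩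
    have : ∑ j ∈ W, M i j * (c • a) j = c * ∑ j ∈ W, M i j * a j := by
      rw [mul_sum]
      exact sum_congr rfl fun j _ => by rw [Pi.smul_apply, smul_eq_mul]; ring
    rw [this, h2 i hi, mul_zero]

theorem mem_Ker {W : Finset V} {M : V → V → F} {v : V → F} :
    v ∈ Ker W M ↔ (∀ i, i ∉ W → v i = 0) ∧ ∀ i ∈ W, ∑ j ∈ W, M i j * v j = 0 := Iff.rfl

/-- the corank of the submatrix -/
noncomputable def cork (W : Finset V) (M : V → V → F) : ℕ := finrank F (Ker W M)

theorem Ker_congr {W : Finset V} {M M' : V → V → F} (h : ∀ i ∈ W, ∀ j ∈ W, M i j = M' i j) :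
    Ker W M = Ker W M' := by
  ext v
  rw [mem_Ker, mem_Ker]
  refine and_congr_right fun _ => forall₂_congr fun i hi => ?_
  rw [sum_congr rfl fun j hj => by rw [h i hi j hj]]

/-- the operator with kernel `Ker W M` -/
def opr (W : Finset V) (M : V → V → F) : (V → F) →ₗ[F] (V → F) where
  toFun v i := if i ∈ W then ∑ j ∈ W, M i j * v j else v i
  map_add' a b := by
    ext i
    simp only [Pi.add_apply]
    split_ifs
    · rw [← sum_add_distrib]
      exact sum_congr rfl fun j _ => by rw [mul_add]
    · rfl
  map_smul' c a := by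
    ext i
    simp only [Pi.smul_apply, RingHom.id_apply, smul_eq_mul]
    split_ifs
    · rw [mul_sum]
      exact sum_congr rfl fun j _ => by ring
    · rfl

theorem opr_apply (W : Finset V) (M : V → V → F) (v : V → F) (i : V) :
    opr W M v i = if i ∈ W then ∑ j ∈ W, M i j * v j else v i := rfl

theorem ker_opr (W : Finset V) (M : V → V → F) : LinearMap.ker (opr W M) = Ker W M := by
  ext v
  rw [LinearMap.mem_ker, mem_Ker]
  constructor
  · intro h
    refine ⟨fun i hi => ?_, fun i hi => ?_⟩
    · have := congrFun h i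
      rwa [opr_apply, if_neg hi] at this
    · have := congrFun h i
      rwa [opr_apply, if_pos hi] at this
  · rintro ⟨h1, h2⟩
    ext i
    rw [opr_apply]
    split_ifs with hi
    · exact h2 i hi
    · exact h1 i hi

/-- the dot product -/
def dot : LinearMap.BilinForm F (V → F) := dotProductBilin F F

theorem dot_apply (a b : V → F) : dot a b = ∑ i, a i * b i := rfl

theorem dot_nondeg : (dot : LinearMap.BilinForm F (V → F)).Nondegenerate := by
  have h : ∀ a : V → F, (∀ b, dot a b = 0) → a = 0 := by
    intro a ha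
    ext i
    have := ha (Pi.single i 1)
    rw [dot_apply] at this
    simpa [Pi.single_apply] using this
  refine ⟨fun a ha => h a ha, fun a ha => h a fun b => ?_⟩
  have := ha b
  rw [dot_apply] at this ⊢
  rw [← this]
  exact sum_congr rfl fun i _ => mul_comm _ _

theorem range_opr {W : Finset V} {M : V → V → F} (hM : ∀ i ∈ W, ∀ j ∈ W, M i j = M j i) :
    LinearMap.range (opr W M) = dot.orthogonal (Ker W M) := by
  have h1 : LinearMap.range (opr W M) ≤ dot.orthogonal (Ker W M) := by
    rintro _ ⟨u, rfl⟩
    rw [LinearMap.BilinForm.mem_orthogonal_iff]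
    intro v hv
    show dot v (opr W M u) = 0
    obtain ⟨hv1, hv2⟩ := mem_Ker.1 hv
    rw [dot_apply, ← sum_subset (subset_univ W) fun i _ hi => by rw [hv1 i hi, zero_mul]]
    have h3 : ∀ i ∈ W, v i * opr W M u i = ∑ j ∈ W, v i * (M i j * u j) := by
      intro i hi
      rw [opr_apply, if_pos hi, mul_sum]
    rw [sum_congr rfl h3, sum_comm]
    refine sum_eq_zero fun j hj => ?_
    have h4 : ∑ i ∈ W, v i * (M i j * u j) = (∑ i ∈ W, M j i * v i) * u j := by
      rw [sum_mul]
      refine sum_congr rfl fun i hi => ?_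
      rw [hM i hi j hj]
      ring
    rw [h4, hv2 j hj, zero_mul]
  refine Submodule.eq_of_le_of_finrank_eq h1 ?_
  rw [LinearMap.BilinForm.finrank_orthogonal dot_nondeg, ← ker_opr]
  have := LinearMap.finrank_range_add_finrank_ker (opr W M)
  omega

theorem cork_le (W : Finset V) (M : V → V → F) : cork W M ≤ Fintype.card V := by
  have := Submodule.finrank_le (Ker W M)
  rwa [finrank_fintype_fun_eq_card] at this

/-- the vectors orthogonal to the kernel -/
def Orth (W : Finset V) (M : V → V → F) (b : V → F) : Prop := ∀ v ∈ Ker W M, ∑ i ∈ W, b i * v i = 0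

theorem orth_iff {W : Finset V} {M : V → V → F} {b : V → F} :
    Orth W M b ↔ b ∈ dot.orthogonal (Ker W M) := by
  rw [LinearMap.BilinForm.mem_orthogonal_iff]
  unfold Orth
  refine forall₂_congr fun v hv => ?_
  show _ ↔ dot v b = 0
  rw [dot_apply, ← sum_subset (subset_univ W) fun i _ hi => by rw [hv.1 i hi, zero_mul]]
  rw [sum_congr rfl fun i _ => mul_comm (b i) (v i)]

theorem card_orth (W : Finset V) (M : V → V → F) :
    Nat.card {b : V → F // Orth W M b} * 3 ^ cork W M = 3 ^ Fintype.card V := by
  have h1 : Nat.card {b : V → F // Orth W M b} = Nat.card (dot.orthogonal (Ker W M)) :=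
    Nat.card_congr (Equiv.subtypeEquivRight fun b => orth_iff)
  rw [h1, Module.natCard_eq_pow_finrank (K := F), Nat.card_zmod,
    LinearMap.BilinForm.finrank_orthogonal dot_nondeg, finrank_fintype_fun_eq_card, ← pow_add]
  congr 1
  have := cork_le W M
  unfold cork at *
  omega

variable {W : Finset V} {M M' : V → V → F} {ν : V} (hν : ν ∉ W)
  (hM : ∀ i ∈ W, ∀ j ∈ W, M i j = M j i) {b : V → F}
  (h1 : ∀ i ∈ W, ∀ j ∈ W, M' i j = M i j) (h2 : ∀ i ∈ W, M' i ν = b i) (h3 : ∀ i ∈ W, M' ν i = b i)

include hν h1 h2 h3

theorem mem_ext {v : V → F} : v ∈ Ker (insert ν W) M' ↔ (∀ i, i ∉ insert ν W → v i = 0) ∧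
    (∀ i ∈ W, ∑ j ∈ W, M i j * v j = - (b i * v ν)) ∧ ∑ j ∈ W, b j * v j = - (M' ν ν * v ν) := by
  rw [mem_Ker, forall_mem_insert]
  refine and_congr_right fun _ => ?_
  rw [sum_insert hν, sum_congr rfl fun j hj => by rw [h3 j hj], and_comm]
  refine and_congr (forall₂_congr fun i hi => ?_) ?_
  · rw [sum_insert hν, h2 i hi, sum_congr rfl fun j hj => by rw [h1 i hi j hj]]
    rw [eq_neg_iff_add_eq_zero, add_comm]
  · rw [eq_neg_iff_add_eq_zero, add_comm]

include hM

/-- `b` is not in the image -/
theorem cork_not (hb : ¬ Orth W M b) : cork (insert ν W) M' = cork W M - 1 ∧ 0 < cork W M := by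
  -- the functional on the kernel
  let φ : Ker W M →ₗ[F] F :=
    { toFun := fun v => ∑ i ∈ W, b i * (v : V → F) i
      map_add' := fun v w => by
        rw [← sum_add_distrib]
        exact sum_congr rfl fun i _ => by rw [Submodule.coe_add, Pi.add_apply, mul_add]
      map_smul' := fun c v => by
        rw [RingHom.id_apply, smul_eq_mul, mul_sum]
        exact sum_congr rfl fun i _ => by
          rw [Submodule.coe_smul, Pi.smul_apply, smul_eq_mul]; ring }
  have hφ : φ ≠ 0 := by
    intro h0
    apply hb
    intro v hv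
    exact congrArg (fun f : Ker W M →ₗ[F] F => f ⟨v, hv⟩) h0
  have hr : finrank F (LinearMap.range φ) = 1 := by
    rw [LinearMap.range_eq_top.2 (LinearMap.surjective hφ), finrank_top, finrank_self]
  have hk := LinearMap.finrank_range_add_finrank_ker φ
  have he : Ker (insert ν W) M' = (LinearMap.ker φ).map (Ker W M).subtype := by
    ext v
    rw [mem_ext hν h1 h2 h3, Submodule.mem_map]
    constructor
    · rintro ⟨g1, g2, g3⟩
      have ht : v ν = 0 := by
        by_contra ht
        apply hb
        intro w hw
        have e1 : v ν * ∑ i ∈ W, b i * w i = - ∑ i ∈ W, (∑ j ∈ W, M i j * v j) * w i := by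
          rw [mul_sum, ← sum_neg_distrib]
          refine sum_congr rfl fun i hi => ?_
          rw [g2 i hi]
          ring
        have e2 : ∑ i ∈ W, (∑ j ∈ W, M i j * v j) * w i = 0 := by
          have : ∀ i ∈ W, (∑ j ∈ W, M i j * v j) * w i = ∑ j ∈ W, M j i * w i * v j := by
            intro i hi
            rw [sum_mul]
            refine sum_congr rfl fun j hj => ?_
            rw [hM i hi j hj]
            ring
          rw [sum_congr rfl this, sum_comm]
          refine sum_eq_zero fun j hj => ?_
          rw [← sum_mul, hw.2 j hj, zero_mul]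
        rw [e2, neg_zero] at e1
        exact (mul_eq_zero.1 e1).resolve_left ht
      have hvK : v ∈ Ker W M := by
        refine ⟨fun i hi => ?_, fun i hi => ?_⟩
        · by_cases hi2 : i = ν
          · rw [hi2, ht]
          · exact g1 i (by rw [mem_insert, not_or]; exact ⟨hi2, hi⟩)
        · rw [g2 i hi, ht, mul_zero, neg_zero]
      refine ⟨⟨v, hvK⟩, ?_, rfl⟩
      rw [LinearMap.mem_ker]
      show ∑ i ∈ W, b i * v i = 0
      rw [g3, ht, mul_zero, neg_zero]
    · rintro ⟨⟨w, hw⟩, hw2, rfl⟩
      rw [LinearMap.mem_ker] at hw2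
      have hwν : w ν = 0 := hw.1 ν hν
      refine ⟨fun i hi => hw.1 i fun h => hi (mem_insert_of_mem h), fun i hi => ?_, ?_⟩
      · show ∑ j ∈ W, M i j * w j = - (b i * w ν)
        rw [hw.2 i hi, hwν, mul_zero, neg_zero]
      · show ∑ j ∈ W, b j * w j = - (M' ν ν * w ν)
        rw [hwν, mul_zero, neg_zero]
        exact hw2
  have e : finrank F (Ker (insert ν W) M') = finrank F (LinearMap.ker φ) := by
    rw [he]
    exact Submodule.finrank_map_subtype_eq _ _
  unfold cork
  omega

/-- `b` is in the image -/
theorem cork_orth {u : V → F} (hu : ∀ i ∈ W, ∑ j ∈ W, M i j * u j = b i) :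
    (M' ν ν = ∑ i ∈ W, b i * u i → cork (insert ν W) M' = cork W M + 1) ∧
    (M' ν ν ≠ ∑ i ∈ W, b i * u i → cork (insert ν W) M' = cork W M) := by
  have hb : Orth W M b := by
    intro v hv
    have e : ∀ i ∈ W, b i * v i = ∑ j ∈ W, M j i * v i * u j := by
      intro i hi
      rw [← hu i hi, sum_mul]
      refine sum_congr rfl fun j hj => ?_
      rw [hM i hi j hj]
      ring
    rw [sum_congr rfl e, sum_comm]
    refine sum_eq_zero fun j hj => ?_
    rw [← sum_mul, hv.2 j hj, zero_mul]
  let ψ : Ker (insert ν W) M' →ₗ[F] F :=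
    { toFun := fun v => (v : V → F) ν
      map_add' := fun v w => rfl
      map_smul' := fun c v => rfl }
  have hk := LinearMap.finrank_range_add_finrank_ker ψ
  have he : Ker W M = (LinearMap.ker ψ).map (Ker (insert ν W) M').subtype := by
    ext v
    rw [Submodule.mem_map]
    constructor
    · intro hv
      have hvν : v ν = 0 := hv.1 ν hν
      have h4 : v ∈ Ker (insert ν W) M' := by
        rw [mem_ext hν h1 h2 h3]
        refine ⟨fun i hi => hv.1 i fun h => hi (mem_insert_of_mem h), fun i hi => ?_, ?_⟩
        · rw [hv.2 i hi, hvν, mul_zero, neg_zero]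
        · rw [hb v hv, hvν, mul_zero, neg_zero]
      exact ⟨⟨v, h4⟩, LinearMap.mem_ker.2 hvν, rfl⟩
    · rintro ⟨⟨w, hw⟩, hw2, rfl⟩
      have hwν : w ν = 0 := LinearMap.mem_ker.1 hw2
      obtain ⟨g1, g2, g3⟩ := (mem_ext hν h1 h2 h3).1 hw
      refine ⟨fun i hi => ?_, fun i hi => ?_⟩
      · show w i = 0
        by_cases hi2 : i = ν
        · rw [hi2, hwν]
        · exact g1 i (by rw [mem_insert, not_or]; exact ⟨hi2, hi⟩)
      · show ∑ j ∈ W, M i j * w j = 0
        rw [g2 i hi, hwν, mul_zero, neg_zero]
  have e : finrank F (Ker W M) = finrank F (LinearMap.ker ψ) := by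
    rw [he]
    exact Submodule.finrank_map_subtype_eq _ _
  constructor
  · intro hd
    have hr : finrank F (LinearMap.range ψ) = 1 := by
      have hψ : ψ ≠ 0 := by
        intro h0
        have h4 : (fun i => if i = ν then (1 : F) else if i ∈ W then - u i else 0) ∈
            Ker (insert ν W) M' := by
          rw [mem_ext hν h1 h2 h3]
          have hW : ∀ j ∈ W, (if j = ν then (1 : F) else if j ∈ W then - u j else 0) = - u j := by
            intro j hj
            rw [if_neg (fun h : j = ν => hν (h ▸ hj)), if_pos hj]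
          refine ⟨fun i hi => ?_, fun i hi => ?_, ?_⟩
          · rw [mem_insert, not_or] at hi
            rw [if_neg hi.1, if_neg hi.2]
          · rw [sum_congr rfl fun j hj => by rw [hW j hj], if_pos rfl, mul_one, ← hu i hi,
              ← sum_neg_distrib]
            exact sum_congr rfl fun j _ => by ring
          · rw [sum_congr rfl fun j hj => by rw [hW j hj], if_pos rfl, mul_one, hd,
              ← sum_neg_distrib]
            exact sum_congr rfl fun j _ => by ring
        have h5 := congrArg (fun f : Ker (insert ν W) M' →ₗ[F] F => f ⟨_, h4⟩) h0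
        have h6 : (1 : F) = 0 := by
          have : (if ν = ν then (1 : F) else if ν ∈ W then - u ν else 0) = 0 := h5
          rwa [if_pos rfl] at this
        exact one_ne_zero h6
      rw [LinearMap.range_eq_top.2 (LinearMap.surjective hψ), finrank_top, finrank_self]
    unfold cork
    omega
  · intro hd
    have hr : finrank F (LinearMap.range ψ) = 0 := by
      have hψ : ψ = 0 := by
        apply LinearMap.ext
        rintro ⟨v, hv⟩
        show v ν = 0
        obtain ⟨g1, g2, g3⟩ := (mem_ext hν h1 h2 h3).1 hv
        by_contra ht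
        apply hd
        have h5 : (fun i => if i ∈ W then v i + v ν * u i else 0) ∈ Ker W M := by
          refine ⟨fun i hi => if_neg hi, fun i hi => ?_⟩
          have h8 : ∀ j ∈ W, M i j * (fun i => if i ∈ W then v i + v ν * u i else 0) j =
              M i j * (v j + v ν * u j) := fun j hj => by
            show M i j * (if j ∈ W then v j + v ν * u j else 0) = _
            rw [if_pos hj]
          rw [sum_congr rfl h8]
          have : ∑ j ∈ W, M i j * (v j + v ν * u j) =
              ∑ j ∈ W, M i j * v j + v ν * ∑ j ∈ W, M i j * u j := by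
            rw [mul_sum, ← sum_add_distrib]
            exact sum_congr rfl fun j _ => by ring
          rw [this, g2 i hi, hu i hi]
          ring
        have h6 := hb _ h5
        have h8 : ∀ j ∈ W, b j * (fun i => if i ∈ W then v i + v ν * u i else 0) j =
            b j * (v j + v ν * u j) := fun j hj => by
          show b j * (if j ∈ W then v j + v ν * u j else 0) = _
          rw [if_pos hj]
        rw [sum_congr rfl h8] at h6
        have h7 : ∑ j ∈ W, b j * (v j + v ν * u j) =
            ∑ j ∈ W, b j * v j + v ν * ∑ j ∈ W, b j * u j := by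
          rw [mul_sum, ← sum_add_distrib]
          exact sum_congr rfl fun j _ => by ring
        rw [h7, g3] at h6
        apply mul_left_cancel₀ ht
        linear_combination -h6
      rw [hψ, LinearMap.range_zero, finrank_bot]
    unfold cork
    omega

omit hν h1 h2 h3 in
theorem exists_u (hb : Orth W M b) : ∃ u : V → F, ∀ i ∈ W, ∑ j ∈ W, M i j * u j = b i := by
  rw [orth_iff, ← range_opr hM] at hb
  obtain ⟨u, hu⟩ := hb
  refine ⟨u, fun i hi => ?_⟩
  have := congrFun hu i
  rwa [opr_apply, if_pos hi] at this

end Pool.Agent.H454.TG
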