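import Pool.Agent.H454.TG.Tr

/-! The mean square deviation for the groups of twists, and Chebyshev's inequality. -/

set_option autoImplicit false
set_option linter.unusedSectionVars false

open scoped Classical

namespace Pool.Agent.H454.TG

open Finset hiding ext
open Module Filter Topology NumberField WeierstrassCurve
open Pool.Agent.Y703.XK (prs ext)
open Pool.Agent.R338.CK (law share_eq nL Sets SetsK card_prs)
open Pool.Agent.Y692.QS (Ei w nr toC)
open Pool.Agent.Y703.CT (Dt pD)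
open Pool.Agent.R338.CK.XL6 (KerV SelK SelH)
open Pool.Agent.R338.CK.S (ED)
open Pool.Agent.R419.KL (Sel3)

/-- the error term -/
noncomputable def err (C : ℝ) (m : ℕ) (X : Fin (m + 1) → ℕ) (z : ℕ) : ℝ :=
  144 ^ (m + 1) * 3 ^ (m * (m + 1) / 2) * C * (z : ℝ) ^ (-(1 / 24 : ℝ)) * ∏ i, (X i : ℝ)

theorem const_eq : prob 0 = 2 * ∏' j : ℕ, (1 + (1 / (3 : ℝ)) ^ j)⁻¹ := by
  have h := Pool.Agent.Q243.PR3.euler (q := 1 / 3) (by norm_num) (by norm_num)
  unfold prob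
  rw [← h]
  norm_num

theorem main : ∃ C : ℝ, 0 < C ∧ ∀ (K : Type) [Field K] [NumberField K]
    [IsCyclotomicExtension {3} ℚ K] (m : ℕ) (P : Fin (m + 1) → Finset (𝓞 K))
    (X : Fin (m + 1) → ℕ) (z : ℕ), SetsK P X z →
    (∀ p ∈ Tup P, (Grp p).ncard = 2 * 3 ^ m ∧ ∀ e ∈ Grp p, ∃ r s : ℕ,
      (SelK ((twist p e : 𝓞 K) : K)).ncard = 3 ^ (r + 1) ∧
      Nat.card (Sel3 ((twist p e : 𝓞 K) : K)) = 3 ^ (s + 1) ∧ r ≤ m ∧ r ≤ s ∧ s ≤ 2 * r ∧
      Module.finrank ℤ (ED ((twist p e : 𝓞 K) : K)).toAffine.Point ≤ 2 * r) ∧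
    (∀ r : ℕ, ∑ᶠ p ∈ Tup P, (share p (fun D : K => (SelK D).ncard = 3 ^ (r + 1)) - prob r) ^ 2 ≤
      21 / 3 ^ r * (23 / 27) ^ (m + 1) * ((Tup P).ncard : ℝ) + err C m X z) ∧
    (∀ p ∈ Tup P, share p (fun D : K => Nat.card (Sel3 D) = 3) =
      share p (fun D : K => (SelK D).ncard = 3 ^ (0 + 1))) ∧ (Tup P).Finite := by
  obtain ⟨C, hC1, hC⟩ := box
  refine ⟨C, by linarith, fun K _ _ _ m P X z hS => ?_⟩
  obtain ⟨ω, hω⟩ : ∃ ω : K, ω ^ 2 + ω + 1 = 0 := by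
    obtain ⟨j, hj⟩ := Pool.Agent.R338.CK.Y455.jex K
    have hww : (Pool.Agent.Y692.QS.w : Pool.Agent.Y692.QS.Ei) ^ 2 + Pool.Agent.Y692.QS.w + 1 = 0 := by
      decide
    refine ⟨((j Pool.Agent.Y692.QS.w : 𝓞 K) : K), ?_⟩
    have h2 := congrArg (fun z => ((j z : 𝓞 K) : K)) hww
    simp only [map_add, map_pow, map_one, map_zero] at h2
    exact h2
  obtain ⟨j, P', hj, hS', hT, hq, hinj⟩ := transfer (K := K) hS
  -- the facts on one curve
  have key : ∀ q ∈ TA P', ∀ e ∈ EA q, ∃ r s : ℕ, (SelK (j (tw q e) : K)).ncard = 3 ^ (r + 1) ∧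
      (sol (ext (sy q)) e).ncard = 3 ^ (r + 1) ∧
      Nat.card (Sel3 (j (tw q e) : K)) = 3 ^ (s + 1) ∧ r ≤ m ∧ r ≤ s ∧ s ≤ 2 * r ∧
      Module.finrank ℤ (ED (j (tw q e) : K)).toAffine.Point ≤ 2 * r := by
    intro q hq1 e he
    obtain ⟨h1, h2, h3, h4⟩ := one_tw (K := K) (j := j) (hq q hq1).1 he
    obtain ⟨r, hrm, hr⟩ := sol_pow (p := q) (supp_EU he)
    have h5 := Pool.Agent.Y703.XL.Inf.sel_card h3 hω h4
    have h6 : (Pool.Agent.Y703.XL.Inf.killed ω (j (tw q e) : K)).ncard = 3 ^ r := by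
      have h7 : (SelK (j (tw q e) : K)).ncard =
          3 * (Pool.Agent.Y703.XL.Inf.killed ω (j (tw q e) : K)).ncard := h5
      rw [h1, hr, pow_succ'] at h7
      exact (Nat.eq_of_mul_eq_mul_left (by norm_num) h7).symm
    obtain ⟨s, hs, hrs, hs2⟩ := Pool.Agent.R419.KL.sel3_facts h3 hω h4 h6
    exact ⟨r, s, h1.trans hr, hr, hs, hrm, hrs, hs2, h2 r hr.le⟩
  have hexp : ∀ a b : ℕ, 3 ^ (a + 1) = 3 ^ (b + 1) → a = b := by
    intro a b h
    have := Nat.pow_right_injective (le_refl 2 |>.trans (by norm_num) : 2 ≤ 3) h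
    omega
  have hmemT : ∀ p ∈ Tup P, ∃ q ∈ TA P', (fun i => j (q i)) = p := by
    intro p hp
    rw [hT] at hp
    obtain ⟨q, hq1, rfl⟩ := hp
    exact ⟨q, hq1, rfl⟩
  have hcard : (Tup P).ncard = (TA P').card := by
    rw [hT, Set.ncard_image_of_injective _ hinj, Set.ncard_coe_finset]
  refine ⟨fun p hp => ?_, fun r => ?_, fun p hp => ?_, ?_⟩
  · obtain ⟨q, hq1, rfl⟩ := hmemT p hp
    refine ⟨?_, fun e he => ?_⟩
    · rw [grp_j hj, Set.ncard_coe_finset]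
      exact (hq q hq1).2
    · rw [grp_j hj] at he
      obtain ⟨r, s, h1, -, h2, h3, h4, h5, h6⟩ := key q hq1 e he
      rw [twist_j]
      exact ⟨r, s, h1, h2, h3, h4, h5, h6⟩
  · rw [hT, finsum_mem_image (fun q _ q' _ h => hinj h), finsum_mem_coe_finset]
    have h1 : ∀ q ∈ TA P', (share (fun i => j (q i)) (fun D : K => (SelK D).ncard = 3 ^ (r + 1)) -
        prob r) ^ 2 = (shr r (EA q) (sy q) - prob r) ^ 2 := by
      intro q hq1
      rw [share_j hj _ r fun e he => ?_]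
      obtain ⟨r', s, h1, h2, -⟩ := key q hq1 e he
      rw [h1, h2]
    rw [sum_congr rfl h1, ← hT, hcard]
    refine (hC m P' X z hS' r).trans (add_le_add le_rfl (le_of_eq ?_))
    unfold err
    rw [card_prs]
    have h3 : ∏ i, ((16 * X i : ℕ) : ℝ) = 16 ^ (m + 1) * ∏ i, (X i : ℝ) := by
      have h4 : ∀ i, ((16 * X i : ℕ) : ℝ) = 16 * (X i : ℝ) := fun i => by push_cast; ring
      simp only [h4]
      rw [prod_mul_distrib, prod_const, card_univ, Fintype.card_fin]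
    rw [h3]
    have h5 : (144 : ℝ) ^ (m + 1) = 9 ^ (m + 1) * 16 ^ (m + 1) := by
      rw [← mul_pow]
      norm_num
    rw [h5]
    ring
  · obtain ⟨q, hq1, rfl⟩ := hmemT p hp
    have h1 : ∀ e ∈ EA q, Nat.card (Sel3 (j (tw q e) : K)) = 3 ↔
        (sol (ext (sy q)) e).ncard = 3 ^ (0 + 1) := by
      intro e he
      obtain ⟨r, s, -, h2, h3, -, h4, h5, -⟩ := key q hq1 e he
      rw [h3, h2]
      constructor
      · intro h
        have := hexp s 0 (by rw [h]; norm_num)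
        have h6 : r = 0 := by omega
        rw [h6]
      · intro h
        have := hexp r 0 h
        have h6 : s = 0 := by omega
        rw [h6]
        norm_num
    have h2 : ∀ e ∈ EA q, (SelK (j (tw q e) : K)).ncard = 3 ^ (0 + 1) ↔
        (sol (ext (sy q)) e).ncard = 3 ^ (0 + 1) := by
      intro e he
      obtain ⟨r, s, h1, h2, -⟩ := key q hq1 e he
      rw [h1, h2]
    rw [share_j hj _ 0 h1, share_j hj _ 0 h2]
  · rw [hT]
    exact (TA P').finite_toSet.image _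

end Pool.Agent.H454.TG
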