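import Pool.Agent.H454.TG.Rec

/-! Laplacians with random weights. -/

set_option autoImplicit false
set_option linter.unusedSectionVars false

namespace Pool.Agent.H454.TG

open Finset Module

variable {V : Type} [Fintype V] [DecidableEq V]

/-- the Laplacian -/
def Lap (e : V → F) (S : Finset V) (A : V → V → F) (i j : V) : F :=
  if i = j then - ∑ l ∈ S.erase i, e i * e l * (A i l + A l i) else e i * e j * (A i j + A j i)

theorem Lap_symm (e : V → F) (S : Finset V) (A : V → V → F) (i j : V) :
    Lap e S A i j = Lap e S A j i := by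
  unfold Lap
  by_cases h : i = j
  · subst h; rfl
  · rw [if_neg h, if_neg (Ne.symm h)]
    ring

theorem lap_root {e : V → F} {S : Finset V} {ν : V} (hν : ν ∈ S) (he : ∀ i ∈ S, e i ≠ 0)
    (f : ℕ → ℝ) (A : V → V → F) :
    ∑ b : V → F, f (cork (S.erase ν) (Lap e S (Function.update A ν b))) =
      1 * Phi e f (S.erase ν) A := by
  classical
  let Ψ : (V → F) → (V → F) := fun b i => if i ∈ S.erase ν then
    - (e i * e ν * (A i ν + b i) + ∑ l ∈ (S.erase i).erase ν, e i * e l * (A i l + A l i)) else b i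
  have hΨ : Function.Bijective Ψ := by
    refine Finite.injective_iff_bijective.1 fun b b' h => ?_
    funext i
    have h1 := congrFun h i
    by_cases hi : i ∈ S.erase ν
    · have h2 := h1
      simp only [Ψ, if_pos hi] at h2
      have h3 := add_right_cancel (neg_injective h2)
      exact add_left_cancel (mul_left_cancel₀
        (mul_ne_zero (he i (mem_of_mem_erase hi)) (he ν hν)) h3)
    · simpa only [Ψ, if_neg hi] using h1
  have hent : ∀ (b : V → F), ∀ i ∈ S.erase ν, ∀ j ∈ S.erase ν,
      Lap e S (Function.update A ν b) i j = Mat e A (Ψ b) i j := by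
    intro b i hi j hj
    have hiν := ne_of_mem_erase hi
    have hjν := ne_of_mem_erase hj
    unfold Lap Mat
    by_cases hij : i = j
    · rw [if_pos hij, if_pos hij]
      simp only [Ψ, if_pos hi]
      rw [← add_sum_erase (S.erase i) _ (mem_erase.2 ⟨Ne.symm hiν, hν⟩)]
      rw [Function.update_self, Function.update_of_ne hiν b A]
      congr 2
      refine sum_congr rfl fun l hl => ?_
      rw [Function.update_of_ne (ne_of_mem_erase hl) b A]
    · rw [if_neg hij, if_neg hij, Function.update_of_ne hiν b A, Function.update_of_ne hjν b A]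
  unfold Phi
  rw [one_mul, ← Function.Bijective.sum_comp hΨ fun D => f (cork (S.erase ν) (Mat e A D))]
  refine sum_congr rfl fun b _ => ?_
  unfold cork
  rw [Ker_congr (hent b)]

/-- the solutions of the Laplacian system -/
def LK (e : V → F) (S : Finset V) (A : V → V → F) : Set (V → F) :=
  {v | (∀ i, i ∉ S → v i = 0) ∧ ∀ j ∈ S, ∑ i ∈ S, e i * (A j i + A i j) * (v i - v j) = 0}

theorem lap_row {e : V → F} {S : Finset V} (he : ∀ i ∈ S, e i ≠ 0) (A : V → V → F) {ν : V}
    (hν : ν ∈ S) {w : V → F} (hw : w ν = 0) {j : V} (hj : j ∈ S.erase ν) :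
    (∑ i ∈ S, e i * (A j i + A i j) * (w i - w j) = 0) ↔
      ∑ i ∈ S.erase ν, Lap e S A j i * w i = 0 := by
  have hjS := mem_of_mem_erase hj
  have h1 : ∑ i ∈ S.erase ν, Lap e S A j i * w i =
      e j * ∑ i ∈ S, e i * (A j i + A i j) * (w i - w j) := by
    have e1 : ∑ i ∈ S.erase ν, Lap e S A j i * w i = ∑ i ∈ S, Lap e S A j i * w i := by
      rw [← add_sum_erase S _ hν, hw, mul_zero, zero_add]
    rw [e1, ← add_sum_erase S _ hjS, ← add_sum_erase S (fun i => e i * (A j i + A i j) *
      (w i - w j)) hjS, sub_self, mul_zero, zero_add, mul_sum]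
    have e2 : Lap e S A j j * w j = ∑ l ∈ S.erase j, - (e j * e l * (A j l + A l j) * w j) := by
      unfold Lap
      rw [if_pos rfl, neg_mul, sum_mul, sum_neg_distrib]
    rw [e2, ← sum_add_distrib]
    refine sum_congr rfl fun i hi => ?_
    unfold Lap
    rw [if_neg (ne_of_mem_erase hi).symm]
    ring
  rw [h1]
  exact (mul_eq_zero_iff_left (he j hjS)).symm

/-- the equation at the root follows from the others -/
theorem lap_all {e : V → F} {S : Finset V} (he : ∀ i ∈ S, e i ≠ 0) (A : V → V → F) {ν : V}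
    (hν : ν ∈ S) {w : V → F}
    (h : ∀ j ∈ S.erase ν, ∑ i ∈ S, e i * (A j i + A i j) * (w i - w j) = 0) :
    ∑ i ∈ S, e i * (A ν i + A i ν) * (w i - w ν) = 0 := by
  have h1 : ∑ j ∈ S, e j * ∑ i ∈ S, e i * (A j i + A i j) * (w i - w j) = 0 := by
    have h2 : ∑ j ∈ S, e j * ∑ i ∈ S, e i * (A j i + A i j) * (w i - w j) =
        ∑ j ∈ S, ∑ i ∈ S, e j * e i * (A j i + A i j) * w i -
        ∑ j ∈ S, ∑ i ∈ S, e j * e i * (A j i + A i j) * w j := by
      rw [← sum_sub_distrib]
      refine sum_congr rfl fun j _ => ?_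
      rw [← sum_sub_distrib, mul_sum]
      exact sum_congr rfl fun i _ => by ring
    rw [h2, sum_comm, sub_eq_zero]
    refine sum_congr rfl fun j _ => sum_congr rfl fun i _ => by ring
  have h4 : ∑ x ∈ S.erase ν, e x * ∑ i ∈ S, e i * (A x i + A i x) * (w i - w x) = 0 :=
    sum_eq_zero fun j hj => by rw [h j hj, mul_zero]
  rw [← add_sum_erase S _ hν, h4, add_zero] at h1
  exact (mul_eq_zero.1 h1).resolve_left (he ν hν)

/-- **the number of solutions** -/
theorem card_LK {e : V → F} {S : Finset V} (he : ∀ i ∈ S, e i ≠ 0) (A : V → V → F) {ν : V}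
    (hν : ν ∈ S) : (LK e S A).ncard = 3 ^ (cork (S.erase ν) (Lap e S A) + 1) := by
  have h1 : Nat.card (Ker (S.erase ν) (Lap e S A) × F) =
      3 ^ (cork (S.erase ν) (Lap e S A) + 1) := by
    rw [Nat.card_prod, Nat.card_zmod, Module.natCard_eq_pow_finrank (K := F), Nat.card_zmod,
      pow_succ]
    rfl
  rw [← h1, ← Nat.card_coe_set_eq]
  symm
  -- the map `(w, t) ↦ w + t 1_S`
  have hmem : ∀ (x : Ker (S.erase ν) (Lap e S A) × F),
      (fun i => if i ∈ S then (x.1 : V → F) i + x.2 else 0) ∈ LK e S A := by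
    rintro ⟨⟨w, hw⟩, t⟩
    have hwν : w ν = 0 := hw.1 ν (notMem_erase ν S)
    have h2 : ∀ j ∈ S.erase ν, ∑ i ∈ S, e i * (A j i + A i j) * (w i - w j) = 0 := fun j hj =>
      (lap_row he A hν hwν hj).2 (hw.2 j hj)
    have h3 : ∀ j ∈ S, ∑ i ∈ S, e i * (A j i + A i j) * (w i - w j) = 0 := by
      intro j hj
      by_cases hjν : j = ν
      · rw [hjν]
        exact lap_all he A hν h2
      · exact h2 j (mem_erase.2 ⟨hjν, hj⟩)
    refine ⟨fun i hi => if_neg hi, fun j hj => ?_⟩
    refine Eq.trans (sum_congr rfl fun i hi => ?_) (h3 j hj)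
    show e i * (A j i + A i j) * ((if i ∈ S then w i + t else 0) - (if j ∈ S then w j + t else 0)) = _
    rw [if_pos hi, if_pos hj]
    ring
  refine Nat.card_congr (Equiv.ofBijective (fun x => ⟨_, hmem x⟩) ⟨?_, ?_⟩)
  · rintro ⟨⟨w, hw⟩, t⟩ ⟨⟨w', hw'⟩, t'⟩ h
    have h2 : ∀ i, (if i ∈ S then w i + t else 0) = (if i ∈ S then w' i + t' else 0) := fun i =>
      congrFun (congrArg Subtype.val h) i
    have ht : t = t' := by
      have := h2 ν
      rw [if_pos hν, if_pos hν, hw.1 ν (notMem_erase ν S), hw'.1 ν (notMem_erase ν S), zero_add,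
        zero_add] at this
      exact this
    subst ht
    congr 1
    apply Subtype.ext
    funext i
    show w i = w' i
    by_cases hi : i ∈ S
    · have := h2 i
      rw [if_pos hi, if_pos hi] at this
      exact add_right_cancel this
    · rw [hw.1 i fun h => hi (mem_of_mem_erase h), hw'.1 i fun h => hi (mem_of_mem_erase h)]
  · rintro ⟨v, hv1, hv2⟩
    have hwν : (fun i => if i ∈ S then v i - v ν else 0) ν = (0 : F) := by
      show (if ν ∈ S then v ν - v ν else 0) = (0 : F)
      rw [if_pos hν, sub_self]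
    have hw : (fun i => if i ∈ S then v i - v ν else 0) ∈ Ker (S.erase ν) (Lap e S A) := by
      refine ⟨fun i hi => ?_, fun j hj => ?_⟩
      · by_cases hi2 : i = ν
        · rw [hi2]
          exact hwν
        · exact if_neg fun h => hi (mem_erase.2 ⟨hi2, h⟩)
      · rw [← lap_row he A hν hwν hj]
        refine Eq.trans (sum_congr rfl fun i hi => ?_) (hv2 j (mem_of_mem_erase hj))
        show e i * (A j i + A i j) * ((if i ∈ S then v i - v ν else 0) -
          (if j ∈ S then v j - v ν else 0)) = _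
        rw [if_pos hi, if_pos (mem_of_mem_erase hj)]
        ring
    refine ⟨(⟨_, hw⟩, v ν), Subtype.ext ?_⟩
    funext i
    show (if i ∈ S then (if i ∈ S then v i - v ν else 0) + v ν else 0) = v i
    by_cases hi : i ∈ S
    · rw [if_pos hi, if_pos hi, sub_add_cancel]
    · rw [if_neg hi, hv1 i hi]

end Pool.Agent.H454.TG
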