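import Pool.Agent.H454.TG.Mod
import Pool.Graph.R_pool_sql_team_seeded_b0a926ef.R338.CK.Lap

/-! The limit of the law. -/

set_option autoImplicit false
set_option linter.unusedSectionVars false

namespace Pool.Agent.H454.TG

open Finset hiding ext
open Module Filter Topology
open Pool.Agent.Y703.XK (prs ext)
open Pool.Agent.R338.CK (law share_eq nL)

theorem supp_one {V : Type} [Fintype V] [DecidableEq V] : supp (fun _ : V => (1 : F)) = univ := by
  ext i
  rw [mem_supp]
  exact ⟨fun _ => mem_univ _, fun _ => one_ne_zero⟩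

theorem iter_eq (m r : ℕ) : Tr^[m] (ind r) 0 = law m r := by
  classical
  have h0 : (supp (fun _ : Fin (m + 1) => (1 : F))).Nonempty := by
    rw [supp_one]
    exact univ_nonempty
  have h1 := mean_sol h0 r
  rw [supp_one, card_univ, Fintype.card_fin, Nat.add_sub_cancel] at h1
  rw [← share_eq m r, eq_div_iff (by positivity), ← h1]
  rw [card_eq_sum_ones, sum_filter]
  push_cast
  refine sum_congr rfl fun α _ => ?_
  unfold dl
  have h2 : (sol (ext α) fun _ : Fin (m + 1) => (1 : F)).ncard = nL (ext α) := by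
    unfold nL sol
    rw [← Nat.card_coe_set_eq]
    refine Nat.card_congr (Equiv.subtypeEquivRight fun v => ?_)
    rw [supp_one]
    show (_ ∧ _) ↔ _
    constructor
    · rintro ⟨-, h⟩ k
      have := h k (mem_univ _)
      simpa only [one_mul] using this
    · intro h
      refine ⟨fun i hi => absurd (mem_univ i) hi, fun j _ => ?_⟩
      simpa only [one_mul] using h j
  rw [h2]

/-- the limit -/
noncomputable def prob (r : ℕ) : ℝ :=
  (∏' i : ℕ, (1 - (1 / 3 : ℝ) ^ (2 * i + 1))) / ∏ i ∈ Finset.range r, ((3 : ℝ) ^ (i + 1) - 1)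

theorem mult : Multipliable fun i : ℕ => (1 - (1 / 3 : ℝ) ^ (2 * i + 1)) := by
  have h : Summable fun i : ℕ => ‖-(1 / 3 : ℝ) ^ (2 * i + 1)‖ := by
    have h1 : Summable fun i : ℕ => (1 / 3 : ℝ) * (1 / 9) ^ i :=
      (summable_geometric_of_lt_one (by norm_num) (by norm_num)).mul_left _
    refine h1.congr fun i => ?_
    rw [norm_neg, norm_pow, Real.norm_of_nonneg (by norm_num), pow_succ, pow_mul]
    norm_num
    ring
  have := multipliable_one_add_of_summable h
  simpa only [sub_eq_add_neg] using this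

theorem law_tendsto (r : ℕ) : Tendsto (fun m => law m r) atTop (𝓝 (prob r)) := by
  have h1 : Tendsto (fun m : ℕ => (m - r + 1) / 2) atTop atTop := by
    rw [tendsto_atTop_atTop]
    intro b
    exact ⟨2 * b + r, fun a ha => by omega⟩
  have h2 := mult.hasProd.tendsto_prod_nat.comp h1
  have h3 : Tendsto (fun m : ℕ => ∏ j ∈ range r, (1 - (1 / 3 : ℝ) ^ (m - j)) / (3 ^ (j + 1) - 1))
      atTop (𝓝 (∏ j ∈ range r, (1 - 0) / ((3 : ℝ) ^ (j + 1) - 1))) := by
    refine tendsto_finsetProd _ fun j _ => ?_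
    refine Tendsto.div_const (Tendsto.const_sub _ ?_) _
    exact (tendsto_pow_atTop_nhds_zero_of_lt_one (by norm_num) (by norm_num)).comp
      (tendsto_sub_atTop_nat j)
  have h4 := h2.mul h3
  have h5 : (∏' i : ℕ, (1 - (1 / 3 : ℝ) ^ (2 * i + 1))) *
      ∏ j ∈ range r, (1 - 0) / ((3 : ℝ) ^ (j + 1) - 1) = prob r := by
    unfold prob
    have h6 : ∏ j ∈ range r, (1 - 0) / ((3 : ℝ) ^ (j + 1) - 1) =
        (∏ j ∈ range r, ((3 : ℝ) ^ (j + 1) - 1))⁻¹ := by
      rw [← prod_inv_distrib]
      exact prod_congr rfl fun j _ => by rw [sub_zero, one_div]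
    rw [h6, ← div_eq_mul_inv]
  rw [h5] at h4
  exact h4

theorem iter_tendsto (r : ℕ) : Tendsto (fun n => Tr^[n] (ind r) 0) atTop (𝓝 (prob r)) := by
  simp only [iter_eq]
  exact law_tendsto r

end Pool.Agent.H454.TG
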