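import Pool.Agent.H454.TG.Lap

/-! The coranks of the Laplacians of different weights are nearly independent. -/

set_option autoImplicit false
set_option linter.unusedSectionVars false

namespace Pool.Agent.H454.TG

open Finset Module

variable {V : Type} [Fintype V] [DecidableEq V]

/-- the support -/
def supp (e : V → F) : Finset V := univ.filter fun i => e i ≠ 0

theorem mem_supp {e : V → F} {i : V} : i ∈ supp e ↔ e i ≠ 0 := by
  unfold supp
  rw [mem_filter]
  exact ⟨fun h => h.2, fun h => ⟨mem_univ _, h⟩⟩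

theorem supp_ne {e : V → F} : ∀ i ∈ supp e, e i ≠ 0 := fun _ hi => mem_supp.1 hi

/-- the corank of the reduced Laplacian -/
noncomputable def ck (e : V → F) (A : V → V → F) : ℕ := Nat.log 3 (LK e (supp e) A).ncard - 1

theorem ck_eq {e : V → F} (A : V → V → F) {ν : V} (hν : ν ∈ supp e) :
    ck e A = cork ((supp e).erase ν) (Lap e (supp e) A) := by
  unfold ck
  rw [card_LK supp_ne A hν, Nat.log_pow (by norm_num)]
  rfl

theorem ck_update {e : V → F} (A : V → V → F) {ν : V} (hν : ν ∉ supp e) (b : V → F) :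
    ck e (Function.update A ν b) = ck e A := by
  unfold ck
  have : LK e (supp e) (Function.update A ν b) = LK e (supp e) A := by
    ext v
    unfold LK
    refine and_congr_right fun _ => forall₂_congr fun j hj => ?_
    have e1 : ∀ i ∈ supp e, e i * (Function.update A ν b j i + Function.update A ν b i j) *
        (v i - v j) = e i * (A j i + A i j) * (v i - v j) := by
      intro i hi
      rw [Function.update_of_ne (fun h : j = ν => hν (h ▸ hj)) b A,
        Function.update_of_ne (fun h : i = ν => hν (h ▸ hi)) b A]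
    rw [sum_congr rfl e1]
  rw [this]

/-- the number of the matrices -/
noncomputable abbrev nM (V : Type) [Fintype V] [DecidableEq V] : ℝ := Fintype.card (V → V → F)

theorem Lip.sub {f : ℕ → ℝ} {L : ℝ} (h : Lip f L) (p : ℝ) : Lip (fun c => f c - p) L := by
  intro c
  have := h c
  rwa [show f (c + 1) - p - (f c - p) = f (c + 1) - f c by ring]

theorem Tr_sub (f : ℕ → ℝ) (p : ℝ) (n : ℕ) :
    Tr^[n] (fun c => f c - p) = fun c => Tr^[n] f c - p := by
  induction n with
  | zero => rfl
  | succ n ih =>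
    rw [Function.iterate_succ_apply', ih]
    funext c
    rw [Function.iterate_succ_apply', Tr_apply, Tr_apply]
    have h1 : (1 / 3 : ℝ) ^ (c + 1) = (1 / 3) ^ c * (1 / 3) := pow_succ _ _
    rw [h1]
    ring

/-- **approximate independence** -/
theorem mix {e : V → F} {N : Finset V} (hN : N ⊆ supp e) (hN0 : N.Nonempty)
    {G : (V → V → F) → ℝ} (hG : Indep N G) (hG1 : ∀ A, |G A| ≤ 1) {f : ℕ → ℝ} {L p : ℝ}
    (hf : Lip f L) (hp : Filter.Tendsto (fun n => Tr^[n] f 0) Filter.atTop (nhds p)) :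
    |∑ A, (f (ck e A) - p) * G A| ≤ L / 3 ^ (N.card - 1) * nM V := by
  obtain ⟨ν, hν⟩ := hN0
  have hνS := hN hν
  set S := supp e with hS
  set K := S \ N with hK
  set N' := N.erase ν with hN'
  have hKN : Disjoint K N' := by
    rw [disjoint_left]
    intro i hi hi'
    exact (mem_sdiff.1 hi).2 (mem_of_mem_erase hi')
  have hU : S.erase ν = K ∪ N' := by
    ext i
    rw [mem_erase, mem_union, mem_sdiff, mem_erase]
    constructor
    · rintro ⟨h1, h2⟩
      by_cases h3 : i ∈ N
      · exact Or.inr ⟨h1, h3⟩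
      · exact Or.inl ⟨h2, h3⟩
    · rintro (⟨h1, h2⟩ | ⟨h1, h2⟩)
      · exact ⟨fun h => h2 (h ▸ hν), h1⟩
      · exact ⟨h1, hN h2⟩
  have heU : ∀ i ∈ K ∪ N', e i ≠ 0 := by
    intro i hi
    rw [← hU] at hi
    exact supp_ne i (mem_of_mem_erase hi)
  have hcard : N'.card = N.card - 1 := card_erase_of_mem hν
  set g : ℕ → ℝ := fun c => f c - p with hg
  have hgL : Lip g L := hf.sub p
  have h1 := sum_cond (fun A => g (cork (S.erase ν) (Lap e S A))) (Phi e g (S.erase ν)) G ν 1
    (hG ν hν) (fun A => lap_root hνS supp_ne g A)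
  have h2 : ∑ A, (f (ck e A) - p) * G A = ∑ A, g (cork (S.erase ν) (Lap e S A)) * G A := by
    refine sum_congr rfl fun A _ => ?_
    rw [ck_eq A hνS]
  rw [hU, Phi_iter N' hKN heU G (fun μ hμ => hG μ (mem_of_mem_erase hμ)) g, one_mul] at h1
  have hL := hf.nonneg
  -- the pointwise bound
  have h3 : ∀ c, |Tr^[N'.card] g c| ≤ L / 3 ^ N'.card / 2 * 3 ^ c := by
    intro c
    have h4 := (hgL.iter N'.card).bound c
    have h5 : |Tr^[N'.card] g 0| ≤ L / 2 * (1 / 3) ^ N'.card := by
      rw [hg, Tr_sub]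
      exact lim_bound hf hp _
    have h6 : |Tr^[N'.card] g c| ≤ |Tr^[N'.card] g c - Tr^[N'.card] g 0| + |Tr^[N'.card] g 0| := by
      have := abs_add_le (Tr^[N'.card] g c - Tr^[N'.card] g 0) (Tr^[N'.card] g 0)
      rwa [sub_add_cancel] at this
    refine h6.trans ((add_le_add h4 h5).trans (le_of_eq ?_))
    rw [one_div, inv_pow]
    ring
  have h4 : |∑ A, Phi e (Tr^[N'.card] g) K A * G A| ≤
      ∑ A, L / 3 ^ N'.card / 2 * Phi e (fun c => (3 : ℝ) ^ c) K A := by
    refine (abs_sum_le_sum_abs _ _).trans (sum_le_sum fun A _ => ?_)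
    rw [abs_mul]
    refine (mul_le_of_le_one_right (abs_nonneg _) (hG1 A)).trans ?_
    unfold Phi
    rw [mul_sum]
    exact (abs_sum_le_sum_abs _ _).trans (sum_le_sum fun D _ => h3 _)
  rw [← mul_sum, Phi_total (fun i hi => heU i (mem_union_left _ hi))] at h4
  have h5 := Tr_pow K.card
  have h6 : (0 : ℝ) < 3 ^ Fintype.card V := by positivity
  rw [hU] at h2
  rw [h2]
  rw [← h1, abs_mul, abs_of_pos h6] at h4
  have h7 : (0 : ℝ) ≤ nM V := by positivity
  have h8 : (3 : ℝ) ^ Fintype.card V * |∑ A, g (cork (K ∪ N') (Lap e S A)) * G A| ≤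
      3 ^ Fintype.card V * (L / 3 ^ (N.card - 1) * nM V) := by
    refine h4.trans ?_
    rw [hcard]
    have h9 : 0 ≤ L / 3 ^ (N.card - 1) / 2 * 3 ^ Fintype.card V * nM V := by positivity
    calc L / 3 ^ (N.card - 1) / 2 * (3 ^ Fintype.card V * Tr^[K.card] (fun c => (3 : ℝ) ^ c) 0 *
          (Fintype.card (V → V → F) : ℝ))
        = L / 3 ^ (N.card - 1) / 2 * 3 ^ Fintype.card V * nM V *
          Tr^[K.card] (fun c => (3 : ℝ) ^ c) 0 := by
          unfold nM
          ring
      _ ≤ L / 3 ^ (N.card - 1) / 2 * 3 ^ Fintype.card V * nM V * 2 :=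
          mul_le_mul_of_nonneg_left h5 h9
      _ = _ := by ring
  exact le_of_mul_le_mul_left h8 h6

/-- the mean value -/
theorem total {e : V → F} (he : (supp e).Nonempty) (f : ℕ → ℝ) :
    ∑ A, f (ck e A) = Tr^[(supp e).card - 1] f 0 * nM V := by
  obtain ⟨ν, hν⟩ := he
  have h1 := sum_cond (fun A => f (cork ((supp e).erase ν) (Lap e (supp e) A)))
    (Phi e f ((supp e).erase ν)) (fun _ => 1) ν 1 (fun _ _ => rfl)
    (fun A => lap_root hν supp_ne f A)
  simp only [mul_one, one_mul] at h1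
  rw [Phi_total (fun i hi => supp_ne i (mem_of_mem_erase hi)), card_erase_of_mem hν, mul_assoc] at h1
  have h2 := mul_left_cancel₀ (by positivity) h1
  rw [← h2]
  exact sum_congr rfl fun A _ => by rw [ck_eq A hν]

theorem Tr_iter_mono {f g : ℕ → ℝ} (h : ∀ c, f c ≤ g c) (n c : ℕ) : Tr^[n] f c ≤ Tr^[n] g c := by
  induction n generalizing c with
  | zero => exact h c
  | succ n ih =>
    rw [Function.iterate_succ_apply', Function.iterate_succ_apply']
    exact Tr_mono ih c

theorem Tr_iter_smul (f : ℕ → ℝ) (a : ℝ) (n : ℕ) :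
    Tr^[n] (fun c => a * f c) = fun c => a * Tr^[n] f c := by
  induction n with
  | zero => rfl
  | succ n ih =>
    rw [Function.iterate_succ_apply', ih]
    funext c
    rw [Function.iterate_succ_apply', Tr_apply, Tr_apply]
    ring

theorem ind_le (r n : ℕ) : Tr^[n] (ind r) 0 ≤ 2 / 3 ^ r := by
  have h1 : ∀ c, ind r c ≤ 1 / 3 ^ r * 3 ^ c := by
    intro c
    unfold ind
    split_ifs with h
    · rw [h, one_div_mul_cancel (by positivity)]
    · positivity
  have h2 := Tr_iter_mono h1 n 0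
  rw [Tr_iter_smul] at h2
  refine h2.trans ?_
  have := mul_le_mul_of_nonneg_left (Tr_pow n) (by positivity : (0 : ℝ) ≤ 1 / 3 ^ r)
  refine this.trans (le_of_eq (by ring))

theorem ind_nonneg (r n c : ℕ) : 0 ≤ Tr^[n] (ind r) c := by
  have h1 : ∀ c, (0 : ℝ) * 1 ≤ ind r c := by
    intro c
    unfold ind
    split_ifs <;> norm_num
  have h2 := Tr_iter_mono h1 n c
  rw [Tr_iter_smul (fun _ => 1) 0] at h2
  simpa only [zero_mul] using h2

section
variable {r : ℕ} {p : ℝ}
  (hp : Filter.Tendsto (fun n => Tr^[n] (ind r) 0) Filter.atTop (nhds p))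
include hp

theorem p_le : p ≤ 2 / 3 ^ r := le_of_tendsto' hp fun n => ind_le r n

theorem p_nonneg : 0 ≤ p := ge_of_tendsto' hp fun n => ind_nonneg r n 0

theorem ind_le_one (r c : ℕ) : ind r c ≤ 1 := by
  unfold ind
  split_ifs <;> norm_num

theorem ind_nn (r c : ℕ) : 0 ≤ ind r c := by
  unfold ind
  split_ifs <;> norm_num

theorem p_le_one : p ≤ 1 := by
  refine le_of_tendsto' hp fun n => ?_
  have h2 := Tr_iter_mono (g := fun _ => 1) (ind_le_one hp r) n 0
  refine h2.trans (le_of_eq ?_)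
  have : ∀ n c : ℕ, Tr^[n] (fun _ => (1 : ℝ)) c = 1 := by
    intro n
    induction n with
    | zero => intro c; rfl
    | succ n ih =>
      intro c
      rw [Function.iterate_succ_apply', Tr_apply, ih, ih, ih, pow_succ]
      ring
  exact this n 0

/-- the covariances -/
theorem cov {e e' : V → F} (he : (supp e).Nonempty) :
    |∑ A, (ind r (ck e A) - p) * (ind r (ck e' A) - p)| ≤
      9 / 3 ^ r * (1 / 3) ^ (supp e \ supp e').card * nM V := by
  have hp0 := p_nonneg hp
  have hp1 := p_le_one hp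
  have hG1 : ∀ A, |ind r (ck e' A) - p| ≤ 1 := by
    intro A
    have h1 := ind_nn hp r (ck e' A)
    have h2 := ind_le_one hp r (ck e' A)
    rw [abs_le]
    constructor <;> linarith
  have h7 : (0 : ℝ) ≤ nM V := by positivity
  by_cases hN : (supp e \ supp e').Nonempty
  · have hG : Indep (supp e \ supp e') fun A => ind r (ck e' A) - p := by
      intro ν hν A b
      show ind r (ck e' (Function.update A ν b)) - p = _
      rw [ck_update A (mem_sdiff.1 hν).2]
    refine (mix sdiff_subset hN hG hG1 (ind_lip r) hp).trans (le_of_eq ?_)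
    obtain ⟨k, hk⟩ : ∃ k, (supp e \ supp e').card = k + 1 :=
      ⟨_, (Nat.succ_pred_eq_of_pos hN.card_pos).symm⟩
    rw [hk, Nat.add_sub_cancel, pow_succ, one_div, inv_pow]
    have h3 : (0 : ℝ) < 3 ^ r := by positivity
    have h4 : (0 : ℝ) < 3 ^ k := by positivity
    field_simp
    norm_num
  · rw [not_nonempty_iff_eq_empty.1 hN, card_empty, pow_zero, mul_one]
    have h1 : |∑ A, (ind r (ck e A) - p) * (ind r (ck e' A) - p)| ≤
        ∑ A, (ind r (ck e A) + p) := by
      refine (abs_sum_le_sum_abs _ _).trans (sum_le_sum fun A _ => ?_)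
      rw [abs_mul]
      refine (mul_le_of_le_one_right (abs_nonneg _) (hG1 A)).trans ?_
      have h1 := ind_nn hp r (ck e A)
      rw [abs_le]
      constructor <;> linarith
    refine h1.trans ?_
    rw [sum_add_distrib, total he, sum_const, card_univ, nsmul_eq_mul]
    have h2 := mul_le_mul_of_nonneg_right (ind_le r ((supp e).card - 1)) h7
    have h3 := mul_le_mul_of_nonneg_left (p_le hp) h7
    have h4 : (0 : ℝ) ≤ 5 / 3 ^ r * nM V := by positivity
    have h5 : (9 : ℝ) / 3 ^ r * nM V = 2 / 3 ^ r * nM V + nM V * (2 / 3 ^ r) + 5 / 3 ^ r * nM V := by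
      ring
    rw [h5]
    change _ + nM V * p ≤ _
    linarith

end

theorem sum_pairs : ∑ e : V → F, ∑ e' : V → F, (1 / 3 : ℝ) ^ (supp e \ supp e').card =
    (23 / 3) ^ Fintype.card V := by
  classical
  have h1 : ∀ e e' : V → F, (1 / 3 : ℝ) ^ (supp e \ supp e').card =
      ∏ i, (if (e i, e' i).1 ≠ 0 ∧ (e i, e' i).2 = 0 then (1 / 3 : ℝ) else 1) := by
    intro e e'
    rw [prod_ite, prod_const_one, mul_one, prod_const]
    congr 2
    ext i
    rw [mem_sdiff, mem_supp, mem_supp, mem_filter, not_not]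
    exact ⟨fun h => ⟨mem_univ _, h⟩, fun h => h.2⟩
  rw [sum_congr rfl fun e _ => sum_congr rfl fun e' _ => h1 e e', ← sum_product']
  have h2 := Finset.prod_univ_sum (fun _ : V => (univ : Finset (F × F)))
    (fun _ x => (if x.1 ≠ 0 ∧ x.2 = 0 then (1 / 3 : ℝ) else 1))
  rw [Fintype.piFinset_univ] at h2
  have h3 : ∑ x : F × F, (if x.1 ≠ 0 ∧ x.2 = 0 then (1 / 3 : ℝ) else 1) = 23 / 3 := by
    rw [Fintype.sum_prod_type]
    have h4 : (univ : Finset F) = {0, 1, 2} := by decide
    rw [h4]
    have h10 : (1 : F) ≠ 0 := by decide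
    have h20 : (2 : F) ≠ 0 := by decide
    have h12 : (1 : F) ≠ 2 := by decide
    have e0 : (0 : F) ∉ ({1, 2} : Finset F) := by decide
    have e1 : (1 : F) ∉ ({2} : Finset F) := by decide
    simp only [sum_insert e0, sum_insert e1, sum_singleton]
    norm_num [h10, h20]
  rw [h3, prod_const, card_univ] at h2
  rw [h2]
  symm
  refine Fintype.sum_equiv (Equiv.arrowProdEquivProdArrow V (fun _ => F) fun _ => F) _ _ fun x => ?_
  rfl

/-- **The mean square deviation.** -/
theorem variance {r : ℕ} {p : ℝ}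
    (hp : Filter.Tendsto (fun n => Tr^[n] (ind r) 0) Filter.atTop (nhds p))
    (E : Finset (V → F)) (hE : ∀ e ∈ E, (supp e).Nonempty) :
    ∑ A, (∑ e ∈ E, (ind r (ck e A) - p)) ^ 2 ≤
      9 / 3 ^ r * (23 / 3) ^ Fintype.card V * nM V := by
  have h7 : (0 : ℝ) ≤ nM V := by positivity
  have h1 : ∑ A, (∑ e ∈ E, (ind r (ck e A) - p)) ^ 2 =
      ∑ e ∈ E, ∑ e' ∈ E, ∑ A, (ind r (ck e A) - p) * (ind r (ck e' A) - p) := by
    rw [sum_congr rfl fun A _ => by rw [sq, sum_mul_sum]]
    rw [sum_comm]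
    exact sum_congr rfl fun e _ => by rw [sum_comm]
  rw [h1]
  calc _ ≤ ∑ e ∈ E, ∑ e' ∈ E, 9 / 3 ^ r * (1 / 3) ^ (supp e \ supp e').card * nM V :=
        sum_le_sum fun e he => sum_le_sum fun e' _ => (le_abs_self _).trans (cov hp (hE e he))
    _ ≤ ∑ e : V → F, ∑ e' : V → F, 9 / 3 ^ r * (1 / 3) ^ (supp e \ supp e').card * nM V := by
        refine (sum_le_sum fun e _ => sum_le_sum_of_subset_of_nonneg (subset_univ E)
          fun _ _ _ => by positivity).trans ?_
        exact sum_le_sum_of_subset_of_nonneg (subset_univ E)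
          fun _ _ _ => sum_nonneg fun _ _ => by positivity
    _ = _ := by
        rw [← sum_pairs, mul_sum, sum_mul]
        refine sum_congr rfl fun e _ => ?_
        rw [mul_sum, sum_mul]

end Pool.Agent.H454.TG
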