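import Pool.Agent.H454.TG.Mix
import Pool.Graph.R_seed8.Y703.XK.Stm

/-! The Laplacian systems of a random symmetric array. -/

set_option autoImplicit false
set_option linter.unusedSectionVars false

namespace Pool.Agent.H454.TG

open Finset hiding ext
open Module
open Pool.Agent.Y703.XK (prs ext)

variable {V : Type} [Fintype V] [LinearOrder V]

/-- the solutions of the system -/
def sol (β : V → V → F) (e : V → F) : Set (V → F) :=
  {v | (∀ i, i ∉ supp e → v i = 0) ∧ ∀ j ∈ supp e, ∑ i ∈ supp e, e i * β j i * (v i - v j) = 0}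

/-- the array of `A` -/
noncomputable def sg (A : V → V → F) : prs V → F := fun x => A x.1.1 x.1.2 + A x.1.2 x.1.1

theorem ext_sg (A : V → V → F) {i j : V} (h : i ≠ j) : ext (sg A) i j = A i j + A j i := by
  unfold ext sg
  split_ifs with h1 h2
  · rfl
  · exact add_comm _ _
  · exfalso
    unfold prs at h1 h2
    simp only [mem_filter, mem_univ, true_and] at h1 h2
    rcases lt_or_gt_of_ne h with h3 | h3
    · exact h1 h3
    · exact h2 h3

theorem LK_eq (e : V → F) (A : V → V → F) : LK e (supp e) A = sol (ext (sg A)) e := by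
  ext v
  unfold LK sol
  refine and_congr_right fun _ => forall₂_congr fun j hj => ?_
  have e1 : ∀ i ∈ supp e, e i * (A j i + A i j) * (v i - v j) =
      e i * ext (sg A) j i * (v i - v j) := by
    intro i hi
    by_cases hij : i = j
    · rw [hij, sub_self, mul_zero, mul_zero]
    · rw [ext_sg A (Ne.symm hij)]
  rw [sum_congr rfl e1]

/-- the sum over the matrices is a sum over the arrays -/
theorem sum_sg (Φ : (prs V → F) → ℝ) :
    3 ^ (prs V).card * ∑ A : V → V → F, Φ (sg A) = nM V * ∑ α, Φ α := by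
  classical
  -- a right inverse
  let B : (prs V → F) → V → V → F := fun β i j => if h : (i, j) ∈ prs V then β ⟨(i, j), h⟩ else 0
  have hB : ∀ β, sg (B β) = β := by
    intro β
    funext x
    obtain ⟨⟨i, j⟩, hx⟩ := x
    have h1 : (j, i) ∉ prs V := by
      unfold prs at hx ⊢
      simp only [mem_filter, mem_univ, true_and] at hx ⊢
      exact not_lt.2 hx.le
    unfold sg
    simp only [B]
    rw [dif_pos hx, dif_neg h1, add_zero]
  have hadd : ∀ A A' : V → V → F, sg (A + A') = sg A + sg A' := by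
    intro A A'
    funext x
    unfold sg
    simp only [Pi.add_apply]
    ring
  have h1 : ∀ β : prs V → F, ∑ A : V → V → F, Φ (sg A) = ∑ A : V → V → F, Φ (sg A + β) := by
    intro β
    rw [← Equiv.sum_comp (Equiv.addRight (B β)) fun A => Φ (sg A)]
    refine sum_congr rfl fun A _ => ?_
    rw [Equiv.coe_addRight, hadd, hB]
  have h2 : ∑ β : prs V → F, ∑ A : V → V → F, Φ (sg A) = 3 ^ (prs V).card *
      ∑ A : V → V → F, Φ (sg A) := by
    rw [sum_const, card_univ, Fintype.card_fun, ZMod.card, Fintype.card_coe, nsmul_eq_mul]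
    push_cast
    rfl
  rw [← h2, sum_congr rfl fun β _ => h1 β, sum_comm]
  have h3 : ∀ A : V → V → F, ∑ β : prs V → F, Φ (sg A + β) = ∑ β, Φ β := fun A =>
    Equiv.sum_comp (Equiv.addLeft (sg A)) Φ
  rw [sum_congr rfl fun A _ => h3 A, sum_const, card_univ, nsmul_eq_mul]

theorem card_sol {e : V → F} (he : (supp e).Nonempty) (A : V → V → F) :
    (sol (ext (sg A)) e).ncard = 3 ^ (ck e A + 1) := by
  obtain ⟨ν, hν⟩ := he
  rw [← LK_eq, card_LK supp_ne A hν, ck_eq A hν]

theorem ind_eq {e : V → F} (he : (supp e).Nonempty) (A : V → V → F) (r : ℕ) :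
    ind r (ck e A) = if (sol (ext (sg A)) e).ncard = 3 ^ (r + 1) then 1 else 0 := by
  rw [card_sol he]
  unfold ind
  have : ck e A = r ↔ 3 ^ (ck e A + 1) = 3 ^ (r + 1) := by
    constructor
    · intro h; rw [h]
    · intro h
      have := Nat.pow_right_injective (le_refl 2 |>.trans (by norm_num) : 2 ≤ 3) h
      omega
  simp only [this]

/-- the indicator of `3 ^ (r + 1)` solutions -/
noncomputable def dl (r : ℕ) (e : V → F) (α : prs V → F) : ℝ :=
  if (sol (ext α) e).ncard = 3 ^ (r + 1) then 1 else 0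

/-- **The mean square deviation.** -/
theorem variance_sol {r : ℕ} {p : ℝ}
    (hp : Filter.Tendsto (fun n => Tr^[n] (ind r) 0) Filter.atTop (nhds p))
    (E : Finset (V → F)) (hE : ∀ e ∈ E, (supp e).Nonempty) :
    ∑ α : prs V → F, (∑ e ∈ E, (dl r e α - p)) ^ 2 ≤
      9 / 3 ^ r * (23 / 3) ^ Fintype.card V * 3 ^ (prs V).card := by
  have h1 := variance hp E hE
  have h2 := sum_sg (fun α : prs V → F => (∑ e ∈ E, (dl r e α - p)) ^ 2)
  have h3 : ∑ A : V → V → F, (∑ e ∈ E, (dl r e (sg A) - p)) ^ 2 =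
      ∑ A : V → V → F, (∑ e ∈ E, (ind r (ck e A) - p)) ^ 2 := by
    refine sum_congr rfl fun A _ => ?_
    congr 1
    refine sum_congr rfl fun e he => ?_
    rw [ind_eq (hE e he)]
    rfl
  rw [h3] at h2
  have h4 : 0 < nM V := by
    unfold nM
    have : 0 < Fintype.card (V → V → F) := Fintype.card_pos
    exact_mod_cast this
  have h5 := mul_le_mul_of_nonneg_left h1 (by positivity : (0 : ℝ) ≤ 3 ^ (prs V).card)
  rw [h2] at h5
  refine le_of_mul_le_mul_left (h5.trans (le_of_eq ?_)) h4
  ring

/-- the mean value -/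
theorem mean_sol {e : V → F} (he : (supp e).Nonempty) (r : ℕ) :
    ∑ α : prs V → F, dl r e α = Tr^[(supp e).card - 1] (ind r) 0 * 3 ^ (prs V).card := by
  have h1 := total he (ind r)
  have h2 := sum_sg (fun α : prs V → F => dl r e α)
  have h3 : ∑ A : V → V → F, dl r e (sg A) = ∑ A : V → V → F, ind r (ck e A) := by
    refine sum_congr rfl fun A _ => ?_
    rw [ind_eq he]
    rfl
  rw [h3, h1] at h2
  have h4 : 0 < nM V := by
    unfold nM
    have : 0 < Fintype.card (V → V → F) := Fintype.card_pos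
    exact_mod_cast this
  refine (mul_left_cancel₀ h4.ne' ?_)
  rw [← h2]
  ring

end Pool.Agent.H454.TG
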