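import Mathlib

/-! The transition operator for the corank of a random symmetric matrix over the field with three
elements when a random row and column are added: contraction and limit. -/

set_option autoImplicit false

namespace Pool.Agent.H454.TG

/-- the transition operator: from corank `c` to `c - 1`, `c`, `c + 1` -/
noncomputable def Tr (f : ℕ → ℝ) (c : ℕ) : ℝ :=
  (1 - (1 / 3) ^ c) * f (c - 1) + (1 / 3) ^ c * (2 / 3) * f c + (1 / 3) ^ (c + 1) * f (c + 1)

theorem Tr_apply (f : ℕ → ℝ) (c : ℕ) : Tr f c = (1 - (1 / 3) ^ c) * f (c - 1) +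
    (1 / 3) ^ c * (2 / 3) * f c + (1 / 3) ^ (c + 1) * f (c + 1) := rfl

/-- Lipschitz functions -/
def Lip (f : ℕ → ℝ) (L : ℝ) : Prop := ∀ c, |f (c + 1) - f c| ≤ L * 3 ^ c

theorem Lip.nonneg {f : ℕ → ℝ} {L : ℝ} (h : Lip f L) : 0 ≤ L := by
  have := h 0
  simp only [pow_zero, mul_one] at this
  exact (abs_nonneg _).trans this

theorem Lip.tr {f : ℕ → ℝ} {L : ℝ} (h : Lip f L) : Lip (Tr f) (L / 3) := by
  intro c
  have hL := h.nonneg
  have e : Tr f (c + 1) - Tr f c = (1 - (1 / 3) ^ c) * (f c - f (c - 1)) +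
      (1 / 3) ^ (c + 2) * (f (c + 2) - f (c + 1)) := by
    unfold Tr
    rw [Nat.add_sub_cancel]
    ring
  rw [e]
  have h3 : (0 : ℝ) < (1 / 3) ^ c := by positivity
  have h3' : ((1 : ℝ) / 3) ^ c ≤ 1 := pow_le_one₀ (by norm_num) (by norm_num)
  have h2 : |(1 / 3 : ℝ) ^ (c + 2) * (f (c + 2) - f (c + 1))| ≤ L / 3 := by
    rw [abs_mul, abs_of_pos (by positivity)]
    have := mul_le_mul_of_nonneg_left (h (c + 1)) (by positivity : (0 : ℝ) ≤ (1 / 3) ^ (c + 2))
    refine this.trans (le_of_eq ?_)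
    have : (1 / 3 : ℝ) ^ (c + 1) * 3 ^ (c + 1) = 1 := by
      rw [← mul_pow]; norm_num
    rw [pow_succ (1 / 3 : ℝ) (c + 1)]
    linear_combination (L / 3) * this
  have h1 : |(1 - (1 / 3 : ℝ) ^ c) * (f c - f (c - 1))| ≤ L / 3 * (3 ^ c - 1) := by
    rcases Nat.eq_zero_or_pos c with rfl | hc
    · simp
    · obtain ⟨d, rfl⟩ : ∃ d, c = d + 1 := ⟨c - 1, by omega⟩
      rw [abs_mul, abs_of_nonneg (by linarith), Nat.add_sub_cancel]
      have := mul_le_mul_of_nonneg_left (h d) (by linarith : (0 : ℝ) ≤ 1 - (1 / 3) ^ (d + 1))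
      refine this.trans (le_of_eq ?_)
      have : (1 / 3 : ℝ) ^ (d + 1) * 3 ^ (d + 1) = 1 := by
        rw [← mul_pow]; norm_num
      rw [pow_succ (3 : ℝ) d] at this ⊢
      linear_combination (-L / 3) * this
  calc _ ≤ _ := abs_add_le _ _
    _ ≤ L / 3 * (3 ^ c - 1) + L / 3 := add_le_add h1 h2
    _ = L / 3 * 3 ^ c := by ring

theorem Lip.iter {f : ℕ → ℝ} {L : ℝ} (h : Lip f L) (n : ℕ) : Lip (Tr^[n] f) (L / 3 ^ n) := by
  induction n with
  | zero => simpa using h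
  | succ n ih =>
    rw [Function.iterate_succ_apply']
    have := ih.tr
    rwa [div_div, ← pow_succ] at this

theorem Lip.bound {f : ℕ → ℝ} {L : ℝ} (h : Lip f L) (c : ℕ) : |f c - f 0| ≤ L * ((3 ^ c - 1) / 2) := by
  induction c with
  | zero => simp
  | succ c ih =>
    have h1 : f (c + 1) - f 0 = (f (c + 1) - f c) + (f c - f 0) := by ring
    rw [h1]
    refine (abs_add_le _ _).trans ((add_le_add (h c) ih).trans (le_of_eq ?_))
    rw [pow_succ]
    ring

theorem Tr_zero (f : ℕ → ℝ) : Tr f 0 - f 0 = (1 / 3) * (f 1 - f 0) := by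
  unfold Tr
  simp only [pow_zero, zero_add, pow_one]
  ring

theorem step {f : ℕ → ℝ} {L : ℝ} (h : Lip f L) (n : ℕ) :
    |Tr^[n + 1] f 0 - Tr^[n] f 0| ≤ L / 3 * (1 / 3) ^ n := by
  rw [Function.iterate_succ_apply', Tr_zero, abs_mul, abs_of_pos (by norm_num)]
  have := h.iter n 0
  rw [zero_add, pow_zero, mul_one] at this
  refine (mul_le_mul_of_nonneg_left this (by norm_num)).trans (le_of_eq ?_)
  rw [div_pow, one_pow]
  ring

/-- geometric convergence at `0` -/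
theorem lim_bound {f : ℕ → ℝ} {L p : ℝ} (h : Lip f L)
    (hp : Filter.Tendsto (fun n => Tr^[n] f 0) Filter.atTop (nhds p)) (n : ℕ) :
    |Tr^[n] f 0 - p| ≤ L / 2 * (1 / 3) ^ n := by
  have := dist_le_of_le_geometric_of_tendsto (r := (1 / 3 : ℝ)) (C := L / 3) (by norm_num)
    (f := fun n => Tr^[n] f 0) (fun k => by
      rw [dist_comm, Real.dist_eq]
      exact step h k) hp n
  rw [Real.dist_eq] at this
  refine this.trans (le_of_eq ?_)
  ring

/-- the indicator of `r` -/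
def ind (r c : ℕ) : ℝ := if c = r then 1 else 0

theorem ind_lip (r : ℕ) : Lip (ind r) (3 / 3 ^ r) := by
  intro c
  unfold ind
  by_cases h1 : c + 1 = r
  · subst h1
    rw [if_pos rfl, if_neg (by omega)]
    rw [pow_succ]
    have : (0 : ℝ) < 3 ^ c := by positivity
    rw [show (3 : ℝ) / (3 ^ c * 3) * 3 ^ c = 1 by field_simp]
    norm_num
  · by_cases h2 : c = r
    · subst h2
      rw [if_neg h1, if_pos rfl]
      have : (0 : ℝ) < 3 ^ c := by positivity
      rw [show (3 : ℝ) / 3 ^ c * 3 ^ c = 3 by field_simp]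
      norm_num
    · rw [if_neg h1, if_neg h2]
      simp only [sub_self, abs_zero]
      positivity

theorem Tr_mono {f g : ℕ → ℝ} (h : ∀ c, f c ≤ g c) (c : ℕ) : Tr f c ≤ Tr g c := by
  unfold Tr
  have h3 : (0 : ℝ) < (1 / 3) ^ c := by positivity
  have h3' : ((1 : ℝ) / 3) ^ c ≤ 1 := pow_le_one₀ (by norm_num) (by norm_num)
  have := mul_le_mul_of_nonneg_left (h (c - 1)) (by linarith : (0 : ℝ) ≤ 1 - (1 / 3) ^ c)
  have := mul_le_mul_of_nonneg_left (h c) (by positivity : (0 : ℝ) ≤ (1 / 3) ^ c * (2 / 3))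
  have := mul_le_mul_of_nonneg_left (h (c + 1)) (by positivity : (0 : ℝ) ≤ (1 / 3) ^ (c + 1))
  linarith

theorem Tr_pow (n : ℕ) : Tr^[n] (fun c => (3 : ℝ) ^ c) 0 ≤ 2 := by
  have key : ∀ n c : ℕ, Tr^[n] (fun c => (3 : ℝ) ^ c) c = (1 / 3) ^ n * (3 ^ c - 2) + 2 := by
    intro n
    induction n with
    | zero => intro c; simp
    | succ n ih =>
      intro c
      rw [Function.iterate_succ_apply', Tr_apply, ih, ih, ih]
      have h1 : (1 / 3 : ℝ) ^ c * 3 ^ c = 1 := by rw [← mul_pow]; norm_num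
      rcases Nat.eq_zero_or_pos c with rfl | hc
      · simp
        ring
      · obtain ⟨d, rfl⟩ : ∃ d, c = d + 1 := ⟨c - 1, by omega⟩
        rw [Nat.add_sub_cancel]
        rw [pow_succ (3 : ℝ) (d + 1), pow_succ (3 : ℝ) d, pow_succ (1 / 3 : ℝ) (d + 1), pow_succ (1 / 3 : ℝ) n,
          pow_succ (1 / 3 : ℝ) d]
        rw [pow_succ (3 : ℝ) d, pow_succ (1 / 3 : ℝ) d] at h1
        linear_combination ((1 / 3 : ℝ) ^ n * (2 / 3 + 1 / 3 * 3 - 1 / 3)) * h1
  rw [key, pow_zero]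
  have : (0 : ℝ) < (1 / 3) ^ n := by positivity
  linarith

end Pool.Agent.H454.TG
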