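import Pool.Agent.H454.TG.Op
import Pool.Agent.H454.TG.Ext

/-! Averages over the rows of a matrix. -/

set_option autoImplicit false
set_option linter.unusedSectionVars false

namespace Pool.Agent.H454.TG

open Finset Module

variable {V : Type} [Fintype V] [DecidableEq V]

/-- the extended matrix -/
def ex (M : V → V → F) (ν : V) (b : V → F) (d : F) (i j : V) : F :=
  if i = ν then (if j = ν then d else b j) else if j = ν then b i else M i j

theorem card_orth_real (W : Finset V) (M : V → V → F) [DecidablePred (Orth W M)] :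
    (((univ.filter (Orth W M)).card : ℕ) : ℝ) = 3 ^ Fintype.card V * (1 / 3) ^ cork W M := by
  have h := card_orth W M
  rw [Nat.card_eq_fintype_card, Fintype.card_subtype] at h
  have h2 : (((univ.filter (Orth W M)).card : ℕ) : ℝ) * 3 ^ cork W M = 3 ^ Fintype.card V := by
    exact_mod_cast h
  rw [← h2, mul_assoc, ← mul_pow]
  norm_num

theorem sum_three (g : F → ℝ) (d0 : F) (x y : ℝ) (h1 : ∀ d, d = d0 → g d = x)
    (h2 : ∀ d, d ≠ d0 → g d = y) : ∑ d, g d = x + 2 * y := by
  rw [← Finset.add_sum_erase univ g (mem_univ d0), h1 d0 rfl]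
  congr 1
  rw [sum_congr rfl (g := fun _ => y) fun d hd => h2 d (ne_of_mem_erase hd), sum_const,
    card_erase_of_mem (mem_univ d0), card_univ, ZMod.card]
  norm_num

theorem sum_ex {W : Finset V} {M : V → V → F} {ν : V} (hν : ν ∉ W)
    (hM : ∀ i ∈ W, ∀ j ∈ W, M i j = M j i) (f : ℕ → ℝ) :
    ∑ b : V → F, ∑ d : F, f (cork (insert ν W) (ex M ν b d)) =
      3 ^ Fintype.card V * 3 * Tr f (cork W M) := by
  classical
  have hne : ∀ i ∈ W, i ≠ ν := fun i hi h => hν (h ▸ hi)
  have e1 : ∀ (b : V → F) (d : F), ∀ i ∈ W, ∀ j ∈ W, ex M ν b d i j = M i j := by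
    intro b d i hi j hj
    unfold ex
    rw [if_neg (hne i hi), if_neg (hne j hj)]
  have e2 : ∀ (b : V → F) (d : F), ∀ i ∈ W, ex M ν b d i ν = b i := by
    intro b d i hi
    unfold ex
    rw [if_neg (hne i hi), if_pos rfl]
  have e3 : ∀ (b : V → F) (d : F), ∀ i ∈ W, ex M ν b d ν i = b i := by
    intro b d i hi
    unfold ex
    rw [if_pos rfl, if_neg (hne i hi)]
  have e4 : ∀ (b : V → F) (d : F), ex M ν b d ν ν = d := by
    intro b d
    unfold ex
    rw [if_pos rfl, if_pos rfl]
  have hs : ∀ b : V → F, ∑ d : F, f (cork (insert ν W) (ex M ν b d)) =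
      if Orth W M b then f (cork W M + 1) + 2 * f (cork W M) else 3 * f (cork W M - 1) := by
    intro b
    split_ifs with hb
    · obtain ⟨u, hu⟩ := exists_u hM hb
      refine sum_three _ (∑ i ∈ W, b i * u i) _ _ (fun d hd => ?_) fun d hd => ?_
      · rw [(cork_orth hν hM (e1 b d) (e2 b d) (e3 b d) hu).1 (by rw [e4]; exact hd)]
      · rw [(cork_orth hν hM (e1 b d) (e2 b d) (e3 b d) hu).2 (by rw [e4]; exact hd)]
    · rw [sum_congr rfl fun d _ => by rw [(cork_not hν hM (e1 b d) (e2 b d) (e3 b d) hb).1]]
      rw [sum_const, card_univ, ZMod.card]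
      norm_num
  rw [sum_congr rfl fun b _ => hs b, sum_ite, sum_const, sum_const, nsmul_eq_mul, nsmul_eq_mul,
    card_orth_real]
  have hc : (((univ.filter fun b => ¬ Orth W M b).card : ℕ) : ℝ) =
      3 ^ Fintype.card V - 3 ^ Fintype.card V * (1 / 3) ^ cork W M := by
    have h1 := card_filter_add_card_filter_not (s := (univ : Finset (V → F))) (Orth W M)
    rw [card_univ, Fintype.card_fun, ZMod.card] at h1
    rw [← card_orth_real W M]
    rw [eq_sub_iff_add_eq', ← Nat.cast_add, h1]
    push_cast
    rfl
  rw [hc, Tr_apply]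
  ring

/-- the symmetric matrix with off-diagonal entries from `A` and diagonal entries `D` -/
def Mat (e : V → F) (A : V → V → F) (D : V → F) (i j : V) : F :=
  if i = j then D i else e i * e j * (A i j + A j i)

theorem Mat_symm (e : V → F) (A : V → V → F) (D : V → F) (i j : V) :
    Mat e A D i j = Mat e A D j i := by
  unfold Mat
  by_cases h : i = j
  · subst h; rfl
  · rw [if_neg h, if_neg (Ne.symm h)]
    ring

/-- the sum over the diagonal -/
noncomputable def Phi (e : V → F) (f : ℕ → ℝ) (W : Finset V) (A : V → V → F) : ℝ :=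
  ∑ D : V → F, f (cork W (Mat e A D))

theorem sum_update {β : Type} [AddCommMonoid β] [Module ℝ β] (g : (V → F) → β) (ν : V) :
    ∑ D : V → F, ∑ d : F, g (Function.update D ν d) = (3 : ℝ) • ∑ D : V → F, g D := by
  classical
  have h1 : ∀ D : V → F, ∑ d : F, g (Function.update D ν d) =
      ∑ d : F, g (Function.update D ν (D ν + d)) := by
    intro D
    exact (Equiv.sum_comp (Equiv.addLeft (D ν)) fun d => g (Function.update D ν d)).symm
  rw [sum_congr rfl fun D _ => h1 D, sum_comm]
  have h2 : ∀ d : F, ∑ D : V → F, g (Function.update D ν (D ν + d)) = ∑ D : V → F, g D := by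
    intro d
    have h3 : ∀ D : V → F, Function.update D ν (D ν + d) = D + Pi.single ν d := by
      intro D
      ext i
      by_cases h : i = ν
      · subst h; simp
      · simp [h]
    rw [sum_congr rfl fun D _ => by rw [h3 D]]
    exact Equiv.sum_comp (Equiv.addRight (Pi.single ν d)) g
  rw [sum_congr rfl fun d _ => h2 d, sum_const, card_univ, ZMod.card]
  rw [← Nat.cast_smul_eq_nsmul ℝ]
  norm_num

theorem Phi_rec {e : V → F} {W : Finset V} {ν : V} (hν : ν ∉ W) (he : ∀ i ∈ insert ν W, e i ≠ 0)
    (f : ℕ → ℝ) (A : V → V → F) :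
    ∑ b : V → F, Phi e f (insert ν W) (Function.update A ν b) =
      3 ^ Fintype.card V * Phi e (Tr f) W A := by
  classical
  have hne : ∀ i ∈ W, i ≠ ν := fun i hi h => hν (h ▸ hi)
  -- the bijection
  have he' : ∀ i ∈ W, e i * e ν ≠ 0 := fun i hi =>
    mul_ne_zero (he i (mem_insert_of_mem hi)) (he ν (mem_insert_self _ _))
  let Ψ : (V → F) → (V → F) := fun b i => if i ∈ W then e i * e ν * (A i ν + b i) else b i
  have hΨ : Function.Bijective Ψ := by
    refine Finite.injective_iff_bijective.1 fun b b' h => ?_
    funext i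
    have h1 := congrFun h i
    by_cases hi : i ∈ W
    · have h2 : e i * e ν * (A i ν + b i) = e i * e ν * (A i ν + b' i) := by
        simpa only [Ψ, if_pos hi] using h1
      exact add_left_cancel (mul_left_cancel₀ (he' i hi) h2)
    · simpa only [Ψ, if_neg hi] using h1
  have hent : ∀ (b D : V → F) (d : F), ∀ i ∈ insert ν W, ∀ j ∈ insert ν W,
      Mat e (Function.update A ν b) (Function.update D ν d) i j = ex (Mat e A D) ν (Ψ b) d i j := by
    intro b D d i hi j hj
    by_cases hiν : i = ν
    · subst hiν
      by_cases hjν : j = i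
      · subst hjν
        unfold Mat ex
        rw [if_pos rfl, if_pos rfl, if_pos rfl, Function.update_self]
      · have hjW : j ∈ W := (mem_insert.1 hj).resolve_left hjν
        unfold Mat ex
        rw [if_neg (Ne.symm hjν), if_pos rfl, if_neg hjν, Function.update_self,
          Function.update_of_ne hjν]
        simp only [Ψ, if_pos hjW]
        ring
    · have hiW : i ∈ W := (mem_insert.1 hi).resolve_left hiν
      by_cases hjν : j = ν
      · subst hjν
        unfold Mat ex
        rw [if_neg hiν, if_neg hiν, if_pos rfl, Function.update_self, Function.update_of_ne hiν]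
        simp only [Ψ, if_pos hiW]
      · unfold Mat ex
        rw [if_neg hiν, if_neg hjν, Function.update_of_ne hiν b A, Function.update_of_ne hjν b A]
        by_cases hij : i = j
        · rw [if_pos hij]
          show Function.update D ν d i = if i = j then D i else e i * e j * (A i j + A j i)
          rw [if_pos hij, Function.update_of_ne hiν]
        · rw [if_neg hij]
          show _ = if i = j then D i else e i * e j * (A i j + A j i)
          rw [if_neg hij]
  have key : (3 : ℝ) * ∑ b : V → F, Phi e f (insert ν W) (Function.update A ν b) =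
      3 * (3 ^ Fintype.card V * Phi e (Tr f) W A) := by
    have h1 : ∀ b : V → F, (3 : ℝ) * Phi e f (insert ν W) (Function.update A ν b) =
        ∑ D : V → F, ∑ d : F, f (cork (insert ν W) (ex (Mat e A D) ν (Ψ b) d)) := by
      intro b
      unfold Phi
      have h2 := sum_update (fun D : V → F =>
        f (cork (insert ν W) (Mat e (Function.update A ν b) D))) ν
      rw [smul_eq_mul] at h2
      rw [← h2]
      refine sum_congr rfl fun D _ => sum_congr rfl fun d _ => ?_
      unfold cork
      rw [Ker_congr (hent b D d)]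
    rw [mul_sum, sum_congr rfl fun b _ => h1 b, sum_comm]
    have h3 : ∀ D : V → F, ∑ b : V → F, ∑ d : F, f (cork (insert ν W) (ex (Mat e A D) ν (Ψ b) d)) =
        3 ^ Fintype.card V * 3 * Tr f (cork W (Mat e A D)) := by
      intro D
      rw [← sum_ex hν (fun i _ j _ => Mat_symm e A D i j) f]
      exact Function.Bijective.sum_comp hΨ fun b => ∑ d : F,
        f (cork (insert ν W) (ex (Mat e A D) ν b d))
    rw [sum_congr rfl fun D _ => h3 D, ← mul_sum]
    unfold Phi
    ring
  exact mul_left_cancel₀ (by norm_num) key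

/-- the sum over all matrices can be done by first replacing one row -/
theorem sum_row (H : (V → V → F) → ℝ) (ν : V) :
    ∑ A : V → V → F, ∑ b : V → F, H (Function.update A ν b) =
      3 ^ Fintype.card V * ∑ A : V → V → F, H A := by
  classical
  have h1 : ∀ A : V → V → F, ∑ b : V → F, H (Function.update A ν b) =
      ∑ b : V → F, H (Function.update A ν (A ν + b)) := by
    intro A
    exact (Equiv.sum_comp (Equiv.addLeft (A ν)) fun b => H (Function.update A ν b)).symm
  rw [sum_congr rfl fun A _ => h1 A, sum_comm]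
  have h2 : ∀ b : V → F, ∑ A : V → V → F, H (Function.update A ν (A ν + b)) =
      ∑ A : V → V → F, H A := by
    intro b
    have h3 : ∀ A : V → V → F, Function.update A ν (A ν + b) = A + Pi.single ν b := by
      intro A
      ext i j
      by_cases h : i = ν
      · subst h; simp
      · simp [h]
    rw [sum_congr rfl fun A _ => by rw [h3 A]]
    exact Equiv.sum_comp (Equiv.addRight (Pi.single ν b)) H
  rw [sum_congr rfl fun b _ => h2 b, sum_const, card_univ, Fintype.card_fun, ZMod.card,
    nsmul_eq_mul]
  push_cast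
  rfl

/-- `G` does not depend on the rows in `N` -/
def Indep (N : Finset V) (G : (V → V → F) → ℝ) : Prop :=
  ∀ ν ∈ N, ∀ (A : V → V → F) (b : V → F), G (Function.update A ν b) = G A

theorem sum_cond (H H' G : (V → V → F) → ℝ) (ν : V) (κ : ℝ)
    (hG : ∀ (A : V → V → F) (b : V → F), G (Function.update A ν b) = G A)
    (hH : ∀ A, ∑ b : V → F, H (Function.update A ν b) = κ * H' A) :
    3 ^ Fintype.card V * ∑ A, H A * G A = κ * ∑ A, H' A * G A := by
  rw [← sum_row (fun A => H A * G A) ν, mul_sum]
  refine sum_congr rfl fun A _ => ?_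
  rw [← mul_assoc, ← hH A, sum_mul]
  exact sum_congr rfl fun b _ => by rw [hG]

theorem Phi_iter {e : V → F} {K : Finset V} (N : Finset V) (hKN : Disjoint K N)
    (he : ∀ i ∈ K ∪ N, e i ≠ 0) (G : (V → V → F) → ℝ) (hG : Indep N G) (f : ℕ → ℝ) :
    ∑ A, Phi e f (K ∪ N) A * G A = ∑ A, Phi e (Tr^[N.card] f) K A * G A := by
  induction N using Finset.induction_on generalizing f with
  | empty => rw [union_empty, card_empty]; rfl
  | insert ν N hνN ih =>
    rw [disjoint_insert_right] at hKN
    have hν : ν ∉ K ∪ N := by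
      rw [mem_union, not_or]
      exact ⟨hKN.1, hνN⟩
    rw [union_insert] at he ⊢
    have h1 := sum_cond (Phi e f (insert ν (K ∪ N))) (Phi e (Tr f) (K ∪ N)) G ν
      (3 ^ Fintype.card V) (hG ν (mem_insert_self _ _)) (Phi_rec hν he f)
    have h2 := mul_left_cancel₀ (by positivity) h1
    rw [h2, card_insert_of_notMem hνN, Function.iterate_succ_apply]
    exact ih hKN.2 (fun i hi => he i (mem_insert_of_mem hi))
      (fun μ hμ => hG μ (mem_insert_of_mem hμ)) (Tr f)

theorem cork_empty (M : V → V → F) : cork ∅ M = 0 := by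
  unfold cork
  have : Ker ∅ M = ⊥ := by
    ext v
    rw [mem_Ker, Submodule.mem_bot]
    constructor
    · rintro ⟨h, -⟩
      funext i
      exact h i (notMem_empty i)
    · rintro rfl
      exact ⟨fun _ _ => rfl, fun i hi => absurd hi (notMem_empty i)⟩
  rw [this, finrank_bot]

theorem Phi_empty (e : V → F) (f : ℕ → ℝ) (A : V → V → F) :
    Phi e f ∅ A = 3 ^ Fintype.card V * f 0 := by
  unfold Phi
  rw [sum_congr rfl fun D _ => by rw [cork_empty], sum_const, card_univ, Fintype.card_fun,
    ZMod.card, nsmul_eq_mul]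
  push_cast
  rfl

/-- the sum over all the matrices -/
theorem Phi_total {e : V → F} {K : Finset V} (he : ∀ i ∈ K, e i ≠ 0) (f : ℕ → ℝ) :
    ∑ A, Phi e f K A = 3 ^ Fintype.card V * Tr^[K.card] f 0 * Fintype.card (V → V → F) := by
  have h := Phi_iter (e := e) (K := ∅) K (disjoint_empty_left _) (by rwa [empty_union])
    (fun _ => 1) (fun _ _ _ _ => rfl) f
  simp only [mul_one, empty_union] at h
  rw [h, sum_congr rfl fun A _ => Phi_empty e _ A, sum_const, card_univ, nsmul_eq_mul]
  ring

end Pool.Agent.H454.TG
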