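import Pool.Agent.H454.TG.Cv
import Pool.Graph.R_pool_sql_team_seeded_2aa45f1a.Q243.PR.Eul

/-! Transfer to the ring of integers of `K`. -/

set_option autoImplicit false
set_option linter.unusedSectionVars false

open scoped Classical

namespace Pool.Agent.H454.TG

open Finset hiding ext
open Module Filter Topology NumberField WeierstrassCurve
open Pool.Agent.Y703.XK (prs ext)
open Pool.Agent.R338.CK (law share_eq nL Sets SetsK)
open Pool.Agent.Y692.QS (Ei w nr toC)
open Pool.Agent.Y715.T.Rec (cs)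
open Pool.Agent.Y715.T.RecG (Pq)
open Pool.Agent.Y699.E (nrm nrm_cast nrm_mul nrm_one nrm_eq')
open Pool.Agent.Y703.CT (Dt pD)
open Pool.Agent.R338.CK.XL6 (KerV SelK SelH trf sel_card selK_card rk_le rank_le)
open Pool.Agent.R338.CK.S (ED)

variable {K : Type} [Field K] [NumberField K]

/-- the twist -/
def twist {n : ℕ} (p : Fin n → 𝓞 K) (e : Fin n → ZMod 3) : 𝓞 K := ∏ i, p i ^ (e i).val

/-- the exponents such that the norm of the twist is not `1` modulo `9` -/
def Grp {n : ℕ} (p : Fin n → 𝓞 K) : Set (Fin n → ZMod 3) :=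
  {e | ¬ (9 : ℤ) ∣ Algebra.norm ℤ (twist p e) - 1}

/-- the tuples with some norm different from `1` modulo `9` -/
def Tup {m : ℕ} (P : Fin (m + 1) → Finset (𝓞 K)) : Set (Fin (m + 1) → 𝓞 K) :=
  {p | (∀ i, p i ∈ P i) ∧ ∃ i, ¬ (9 : ℤ) ∣ Algebra.norm ℤ (p i) - 1}

/-- the share of the twists with a property -/
noncomputable def share {n : ℕ} (p : Fin n → 𝓞 K) (Q : K → Prop) : ℝ :=
  ({e | e ∈ Grp p ∧ Q ((twist p e : 𝓞 K) : K)}.ncard : ℝ) / ((Grp p).ncard : ℝ)

section
variable {j : Ei ≃+* 𝓞 K} (hj : ∀ z : Ei, Algebra.norm ℤ (j z) = nr z) {m : ℕ}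

theorem twist_j (q : Fin (m + 1) → Ei) (e : Fin (m + 1) → ZMod 3) :
    twist (fun i => j (q i)) e = j (tw q e) := by
  unfold twist tw
  rw [map_prod]
  exact prod_congr rfl fun i _ => (map_pow j _ _).symm

include hj

theorem grp_j (q : Fin (m + 1) → Ei) : Grp (fun i => j (q i)) = (EA q : Set (Fin (m + 1) → ZMod 3)) := by
  ext e
  unfold Grp
  rw [mem_coe, mem_EA, Set.mem_ofPred_eq, twist_j, hj]

theorem share_j {q : Fin (m + 1) → Ei} (Q : K → Prop) (r : ℕ)
    (hQ : ∀ e ∈ EA q, Q (j (tw q e) : K) ↔ (sol (ext (sy q)) e).ncard = 3 ^ (r + 1)) :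
    share (fun i => j (q i)) Q = shr r (EA q) (sy q) := by
  unfold share shr
  rw [grp_j hj, Set.ncard_coe_finset]
  congr 1
  have h1 : {e | e ∈ (EA q : Set (Fin (m + 1) → ZMod 3)) ∧
      Q ((twist (fun i => j (q i)) e : 𝓞 K) : K)} =
      ((EA q).filter fun e => (sol (ext (sy q)) e).ncard = 3 ^ (r + 1) :
        Finset (Fin (m + 1) → ZMod 3)) := by
    ext e
    rw [Set.mem_ofPred_eq, coe_filter, Set.mem_ofPred_eq, mem_coe, twist_j]
    exact and_congr_right fun he => hQ e he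
  rw [h1, Set.ncard_coe_finset, card_eq_sum_ones, sum_filter]
  push_cast
  rfl

end

/-- the bound on the number of exponents -/
theorem card_EA {m : ℕ} {q : Fin (m + 1) → Ei} (hq : Dt q (fun _ => 1))
    (h : ∃ i, ((nrm (q i) : ℕ) : ZMod 9) ≠ 1) : (EA q).card = 2 * 3 ^ m := by
  have := card_EU (u := fun i => ((nrm (q i) : ℕ) : ZMod 9)) (fun i => nrm_three (hq.pq i).three) h
  unfold EA
  exact_mod_cast this

theorem cast_one_iff (q : Ei) : ((nrm q : ℕ) : ZMod 9) = 1 ↔ (9 : ℤ) ∣ nr q - 1 := by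
  rw [← nrm_cast]
  have := ZMod.intCast_zmod_eq_zero_iff_dvd ((nrm q : ℤ) - 1) 9
  push_cast at this
  rw [← this, sub_eq_zero]

/-- **the transfer** -/
theorem transfer {m : ℕ} {P : Fin (m + 1) → Finset (𝓞 K)} {X : Fin (m + 1) → ℕ} {z : ℕ}
    [IsCyclotomicExtension {3} ℚ K] (hS : SetsK P X z) :
    ∃ (j : Ei ≃+* 𝓞 K) (P' : Fin (m + 1) → Finset Ei), (∀ z : Ei, Algebra.norm ℤ (j z) = nr z) ∧
      Sets P' X z ∧ Tup P = (fun (q : Fin (m + 1) → Ei) i => j (q i)) '' (TA P' : Set (Fin (m + 1) → Ei)) ∧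
      (∀ q ∈ TA P', Dt q (fun _ => 1) ∧ (EA q).card = 2 * 3 ^ m) ∧
      Function.Injective fun (q : Fin (m + 1) → Ei) (i : Fin (m + 1)) => j (q i) := by
  obtain ⟨j, hj⟩ := Pool.Agent.R338.CK.Y455.jex K
  set P' : Fin (m + 1) → Finset Ei := fun i => (P i).image j.symm with hP'
  have hmem : ∀ i (x : Ei), x ∈ P' i ↔ j x ∈ P i := by
    intro i x
    rw [hP', mem_image]
    constructor
    · rintro ⟨y, hy, rfl⟩
      rwa [RingEquiv.apply_symm_apply]
    · intro h
      exact ⟨j x, h, by rw [RingEquiv.symm_apply_apply]⟩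
  have hS' : Sets P' X z :=
    { one := hS.one
      le := hS.le
      mem := fun i x hx => by
        obtain ⟨h1, h2, h3⟩ := hS.mem i _ ((hmem i x).1 hx)
        refine ⟨⟨?_, ?_⟩, ?_⟩
        · exact (MulEquiv.prime_iff j).1 h1
        · have h4 := map_dvd j.symm h2
          rw [map_sub, map_one, RingEquiv.symm_apply_apply, map_ofNat] at h4
          exact h4
        · rw [hj, ← nrm_cast] at h3
          exact_mod_cast h3
      dis := fun i l hil => disjoint_left.2 fun x hx hx' =>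
        disjoint_left.1 (hS.dis i l hil) ((hmem i x).1 hx) ((hmem l x).1 hx') }
  have hinj : Function.Injective fun (q : Fin (m + 1) → Ei) (i : Fin (m + 1)) => j (q i) := by
    intro q q' h
    funext i
    exact j.injective (congrFun h i)
  have hmem2 : ∀ q : Fin (m + 1) → Ei, q ∈ TA P' ↔ (∀ i, j (q i) ∈ P i) ∧
      ∃ i, ¬ (9 : ℤ) ∣ Algebra.norm ℤ (j (q i)) - 1 := by
    intro q
    unfold TA
    rw [mem_filter, Fintype.mem_piFinset]
    refine and_congr (forall_congr' fun i => hmem i _) (exists_congr fun i => ?_)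
    rw [Ne, cast_one_iff, hj]
  refine ⟨j, P', hj, hS', ?_, fun q hq => ?_, hinj⟩
  · ext p
    constructor
    · rintro ⟨h1, h2⟩
      have h3 : (fun i => j (j.symm (p i))) = p := funext fun i => j.apply_symm_apply _
      refine ⟨fun i => j.symm (p i), ?_, h3⟩
      rw [mem_coe, hmem2]
      simp only [RingEquiv.apply_symm_apply]
      exact ⟨h1, h2⟩
    · rintro ⟨q, hq, rfl⟩
      exact (hmem2 q).1 hq
  · have h1 : ∀ i, q i ∈ P' i := by
      have := (mem_filter.1 hq).1
      rwa [Fintype.mem_piFinset] at this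
    have h2 := hS'.dt h1
    exact ⟨h2, card_EA h2 (mem_filter.1 hq).2⟩

end Pool.Agent.H454.TG
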